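import Mathlib

set_option autoImplicit false

/-!
# The switching class of the Gold function `x ^ 3` (MP_d7c7d1_co), definitions

`F` is a field with `2 ^ n` elements.
-/

namespace Pool.Agent.GSW

open Finset

/-- Almost perfect nonlinear functions: `G (x + a) + G x = b` has at most two solutions for all
`a ≠ 0` and all `b`. -/
def IsAPN {F : Type} [Field F] (G : F → F) : Prop :=
  ∀ a : F, a ≠ 0 → ∀ b : F, {x : F | G (x + a) + G x = b}.ncard ≤ 2

/-- CCZ-equivalence: an affine permutation of `F × F` maps the graph of `G` onto that of `H`.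
(The additive permutations of `F × F` are the linear ones over the field with two elements.) -/
def CCZ {F : Type} [Field F] (G H : F → F) : Prop :=
  ∃ (A : (F × F) ≃+ (F × F)) (t : F × F),
    (fun z => A z + t) '' {z | z.2 = G z.1} = {z | z.2 = H z.1}

/-- The absolute trace of a field with `2 ^ n` elements. -/
def Tr {F : Type} [Field F] (n : ℕ) (x : F) : F := ∑ i ∈ range n, x ^ 2 ^ i

/-- values in `{0, 1}` -/
def Bit {F : Type} [Field F] (x : F) : Prop := x = 0 ∨ x = 1

/-- the pairs `(a, d)` of the function `x ^ 3` in the direction `u` -/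
def Ln {F : Type} [Field F] (u a d : F) : Prop := a ^ 2 * d + a * d ^ 2 = u

/-- biadditive alternating functions with values in `{0, 1}` -/
structure Alt {F : Type} [Field F] (b : F → F → F) : Prop where
  bit : ∀ x y, Bit (b x y)
  add1 : ∀ x x' y, b (x + x') y = b x y + b x' y
  add2 : ∀ x y y', b x (y + y') = b x y + b x y'
  alt : ∀ x, b x x = 0

/-- the value at `(x, y)` of the bilinear form with the coefficients `c p q` -/
def ev {F : Type} [Field F] (n : ℕ) (c : ℕ → ℕ → F) (x y : F) : F :=
  ∑ p ∈ range n, ∑ q ∈ range n, c p q * x ^ 2 ^ p * y ^ 2 ^ q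

/-- the coefficients of an alternating form with values in `{0, 1}` -/
structure Cf {F : Type} [Field F] (n : ℕ) (c : ℕ → ℕ → F) : Prop where
  symm : ∀ p q, c p q = c q p
  diag : ∀ p, c p p = 0
  frob : ∀ p < n, ∀ q < n, c ((p + 1) % n) ((q + 1) % n) = c p q ^ 2

/-- the form `Tr (al (x^2 y + x y^2)) + e Tr (u^(-3) (x^8 y + x y^8))` -/
noncomputable def Fm {F : Type} [Field F] (n : ℕ) (u al e x y : F) : F :=
  Tr n (al * (x ^ 2 * y + x * y ^ 2)) + e * Tr n ((u ^ 3)⁻¹ * (x ^ 8 * y + x * y ^ 8))

/-- the derivative in the direction `a` -/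
def der {F : Type} [Field F] (a : F) (f : F → F) (x : F) : F := f (x + a) + f x

/-- iterated derivatives -/
def ders {F : Type} [Field F] (l : List F) (f : F → F) : F → F := l.foldr der f

end Pool.Agent.GSW
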