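import Pool.Agent.GSW.Targets

set_option autoImplicit false

/-!
# GSW-APN: APN if and only if the second derivatives vanish on the pairs
-/

namespace Pool.Agent.GSW

namespace APNx

variable {F : Type} [Field F] [CharP F 2]

theorem two0 : (2 : F) = 0 := CharTwo.two_eq_zero

/-- APN by second derivatives. -/
theorem key [Finite F] (G : F → F) : IsAPN G ↔
    ∀ a d x : F, a ≠ 0 → d ≠ 0 → a ≠ d → der a (der d G) x ≠ 0 := by
  constructor
  · intro h a d x ha hd had h0
    have h1 := h a ha (G (x + a) + G x)
    have hss : ({x, x + a, x + d} : Set F) ⊆ {y : F | G (y + a) + G y = G (x + a) + G x} := by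
      intro y hy
      simp only [Set.mem_insert_iff, Set.mem_singleton_iff] at hy
      rcases hy with rfl | rfl | rfl
      · rfl
      · change G (x + a + a) + G (x + a) = G (x + a) + G x
        have e : x + a + a = x := by linear_combination a * two0 (F := F)
        rw [e, add_comm]
      · change G (x + d + a) + G (x + d) = G (x + a) + G x
        simp only [der] at h0
        have e : x + d + a = x + a + d := by ring
        rw [e]
        linear_combination h0 - (G (x + a) + G x) * two0 (F := F)
    have h2 : ({x, x + a, x + d} : Set F).ncard = 3 := by
      rw [Set.ncard_eq_three]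
      refine ⟨x, x + a, x + d, ?_, ?_, ?_, rfl⟩
      · intro h
        exact ha (by linear_combination -h)
      · intro h
        exact hd (by linear_combination -h)
      · intro h
        exact had (add_left_cancel h)
    have h3 := Set.ncard_le_ncard hss (Set.toFinite _)
    omega
  · intro h a ha b
    by_contra hlt
    rw [not_le, Set.two_lt_ncard_iff (Set.toFinite _)] at hlt
    obtain ⟨x, y, z, hx, hy, hz, hxy, hxz, hyz⟩ := hlt
    simp only [Set.mem_ofPred_eq] at hx hy hz
    have main : ∀ t : F, G (t + a) + G t = b → x ≠ t → t ≠ x + a → False := by
      intro t ht hxt hta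
      refine h a (t + x) x ha ?_ ?_ ?_
      · intro e
        exact hxt (by linear_combination -e + x * two0 (F := F))
      · intro e
        exact hta (by linear_combination -e - x * two0 (F := F))
      · simp only [der]
        have e1 : x + a + (t + x) = t + a := by linear_combination x * two0 (F := F)
        have e2 : x + (t + x) = t := by linear_combination x * two0 (F := F)
        rw [e1, e2]
        linear_combination ht + hx + b * two0 (F := F)
    by_cases hya : y = x + a
    · exact main z hz hxz fun e => hyz (by rw [hya, e])
    · exact main y hy hxy hya

theorem der2 (u : F) (f : F → F) (a d x : F) :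
    der a (der d fun x => x ^ 3 + u * f x) x =
      (a ^ 2 * d + a * d ^ 2) + u * der a (der d f) x := by
  simp only [der]
  linear_combination ((x + a) ^ 3 + (x + d) ^ 3 + 3 * x * a * d + a ^ 2 * d + a * d ^ 2) *
    two0 (F := F)

theorem bit_add {x y : F} (hx : Bit x) (hy : Bit y) : Bit (x + y) := by
  have h2 : (1 : F) + 1 = 0 := by linear_combination two0 (F := F)
  rcases hx with rfl | rfl <;> rcases hy with rfl | rfl
  · left; ring
  · right; ring
  · right; ring
  · left; exact h2

end APNx

open APNx in
theorem p_APN : T_APN := by
  intro F _ _ _ u f hu hf
  rw [key]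
  have hbit : ∀ a d x : F, Bit (der a (der d f) x) := fun a d x =>
    bit_add (bit_add (hf _) (hf _)) (bit_add (hf _) (hf _))
  constructor
  · intro h a d x hL
    unfold Ln at hL
    have ha : a ≠ 0 := by
      rintro rfl
      exact hu (by rw [← hL]; ring)
    have hd : d ≠ 0 := by
      rintro rfl
      exact hu (by rw [← hL]; ring)
    have had : a ≠ d := by
      rintro rfl
      exact hu (by rw [← hL]; linear_combination a ^ 3 * two0 (F := F))
    have h1 := h a d x ha hd had
    rw [der2, hL] at h1
    rcases hbit a d x with h2 | h2
    · exact h2
    · exfalso
      refine h1 ?_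
      rw [h2]
      linear_combination u * two0 (F := F)
  · intro h a d x ha hd had h0
    rw [der2] at h0
    rcases hbit a d x with h2 | h2
    · rw [h2, mul_zero, add_zero] at h0
      have h3 : a * d * (a + d) = 0 := by linear_combination h0
      have h4 : a + d ≠ 0 := fun e => had (by linear_combination e - d * two0 (F := F))
      exact mul_ne_zero (mul_ne_zero ha hd) h4 h3
    · have hL : Ln u a d := by
        unfold Ln
        rw [h2] at h0
        linear_combination h0 - u * two0 (F := F)
      rw [h a d x hL] at h2
      exact zero_ne_one h2

end Pool.Agent.GSW
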