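import Pool.Agent.GSW.Targets

set_option autoImplicit false

/-!
# The switching class of `x ^ 3` (MP_d7c7d1_co): CCZ-equivalence of the solutions
-/

namespace Pool.Agent.GSW

open Finset

namespace CLSx

variable {F : Type} [Field F]

/-- a sufficient condition for CCZ-equivalence -/
theorem ccz_mk {G H : F → F} (A : (F × F) ≃+ (F × F)) (t : F × F) (p : F → F)
    (hp : Function.Surjective p) (h : ∀ x, A (x, G x) + t = (p x, H (p x))) : CCZ G H := by
  refine ⟨A, t, ?_⟩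
  ext z
  constructor
  · rintro ⟨w, hw, rfl⟩
    have hw' : w = (w.1, G w.1) := Prod.ext rfl hw
    have h1 := h w.1
    rw [← hw'] at h1
    show (A w + t).2 = H (A w + t).1
    rw [h1]
  · intro hz
    obtain ⟨x, hx⟩ := hp z.1
    refine ⟨(x, G x), rfl, ?_⟩
    show A (x, G x) + t = z
    rw [h x, hx]
    exact Prod.ext rfl (Eq.symm hz)

theorem refl' (G : F → F) : CCZ G G :=
  ccz_mk (AddEquiv.refl _) 0 id Function.surjective_id (fun x => by simp)

theorem symm' (G H : F → F) (h : CCZ G H) : CCZ H G := by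
  obtain ⟨A, t, hA⟩ := h
  refine ⟨A.symm, - A.symm t, ?_⟩
  rw [← hA, Set.image_image]
  ext z
  constructor
  · rintro ⟨w, hw, rfl⟩
    have : A.symm (A w + t) + - A.symm t = w := by
      rw [map_add, AddEquiv.symm_apply_apply]
      abel
    show (A.symm (A w + t) + - A.symm t) ∈ {z : F × F | z.2 = G z.1}
    rw [this]
    exact hw
  · intro hz
    refine ⟨z, hz, ?_⟩
    show A.symm (A z + t) + - A.symm t = z
    rw [map_add, AddEquiv.symm_apply_apply]
    abel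

theorem trans' (G H K : F → F) (h1 : CCZ G H) (h2 : CCZ H K) : CCZ G K := by
  obtain ⟨A, s, hA⟩ := h1
  obtain ⟨B, t, hB⟩ := h2
  refine ⟨A.trans B, B s + t, ?_⟩
  rw [← hB, ← hA, Set.image_image]
  refine Set.image_congr ?_
  intro z _
  show B (A z) + (B s + t) = B (A z + s) + t
  rw [map_add]
  abel

theorem tr_zero (n : ℕ) : Tr n (0 : F) = 0 := by
  unfold Tr
  refine Finset.sum_eq_zero (fun i _ => ?_)
  exact zero_pow (pow_ne_zero _ two_ne_zero)

theorem tr_bit (n : ℕ) (c b : F) (hb : Bit b) : Tr n (c * b) = b * Tr n c := by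
  rcases hb with rfl | rfl
  · rw [mul_zero, zero_mul, tr_zero]
  · rw [mul_one, one_mul]

theorem bit_mul {a b : F} (ha : Bit a) (hb : Bit b) : Bit (a * b) := by
  rcases ha with rfl | rfl
  · left; rw [zero_mul]
  · rw [one_mul]; exact hb

/-- the involution `(x, y) ↦ (x, y + u Tr (al y) + u Tr (la x))` -/
def inv1 [CharP F 2] (n : ℕ) (hadd : ∀ x y : F, Tr n (x + y) = Tr n x + Tr n y)
    (hbit : ∀ x : F, Bit (Tr n x)) (u al la : F) (h : Tr n (al * u) = 0) :
    (F × F) ≃+ (F × F) where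
  toFun z := (z.1, z.2 + u * Tr n (al * z.2) + u * Tr n (la * z.1))
  invFun z := (z.1, z.2 + u * Tr n (al * z.2) + u * Tr n (la * z.1))
  left_inv := by
    intro z
    refine Prod.ext rfl ?_
    have e : al * (z.2 + u * Tr n (al * z.2) + u * Tr n (la * z.1)) =
        al * z.2 + (al * u) * Tr n (al * z.2) + (al * u) * Tr n (la * z.1) := by ring
    have e2 : Tr n (al * (z.2 + u * Tr n (al * z.2) + u * Tr n (la * z.1))) =
        Tr n (al * z.2) := by
      rw [e, hadd, hadd, tr_bit _ _ _ (hbit _), tr_bit _ _ _ (hbit _), h]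
      ring
    show (z.2 + u * Tr n (al * z.2) + u * Tr n (la * z.1)) +
      u * Tr n (al * (z.2 + u * Tr n (al * z.2) + u * Tr n (la * z.1))) +
      u * Tr n (la * z.1) = z.2
    rw [e2]
    have h2 : (2 : F) = 0 := CharTwo.two_eq_zero
    linear_combination (u * Tr n (al * z.2) + u * Tr n (la * z.1)) * h2
  right_inv := by
    intro z
    refine Prod.ext rfl ?_
    have e : al * (z.2 + u * Tr n (al * z.2) + u * Tr n (la * z.1)) =
        al * z.2 + (al * u) * Tr n (al * z.2) + (al * u) * Tr n (la * z.1) := by ring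
    have e2 : Tr n (al * (z.2 + u * Tr n (al * z.2) + u * Tr n (la * z.1))) =
        Tr n (al * z.2) := by
      rw [e, hadd, hadd, tr_bit _ _ _ (hbit _), tr_bit _ _ _ (hbit _), h]
      ring
    show (z.2 + u * Tr n (al * z.2) + u * Tr n (la * z.1)) +
      u * Tr n (al * (z.2 + u * Tr n (al * z.2) + u * Tr n (la * z.1))) +
      u * Tr n (la * z.1) = z.2
    rw [e2]
    have h2 : (2 : F) = 0 := CharTwo.two_eq_zero
    linear_combination (u * Tr n (al * z.2) + u * Tr n (la * z.1)) * h2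
  map_add' := by
    intro z w
    refine Prod.ext rfl ?_
    show (z.2 + w.2) + u * Tr n (al * (z.2 + w.2)) + u * Tr n (la * (z.1 + w.1)) =
      (z.2 + u * Tr n (al * z.2) + u * Tr n (la * z.1)) +
      (w.2 + u * Tr n (al * w.2) + u * Tr n (la * w.1))
    rw [mul_add al, mul_add la, hadd, hadd]
    ring

theorem solution [CharP F 2] (n : ℕ) (hadd : ∀ x y : F, Tr n (x + y) = Tr n x + Tr n y)
    (hbit : ∀ x : F, Bit (Tr n x)) (u al e la c0 : F) (he : Bit e) (h : Tr n (al * u) = 0) :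
    CCZ (fun x => x ^ 3 + u * (e * Tr n ((u ^ 3)⁻¹ * x ^ 9)))
      (fun x => x ^ 3 + u * (Tr n (al * x ^ 3) + e * Tr n ((u ^ 3)⁻¹ * x ^ 9) +
        Tr n (la * x) + c0)) := by
  refine ccz_mk (inv1 n hadd hbit u al la h) (0, u * c0) id Function.surjective_id ?_
  intro x
  refine Prod.ext (by show x + 0 = x; rw [add_zero]) ?_
  have e1 : al * (x ^ 3 + u * (e * Tr n ((u ^ 3)⁻¹ * x ^ 9))) =
      al * x ^ 3 + (al * u) * (e * Tr n ((u ^ 3)⁻¹ * x ^ 9)) := by ring
  have e2 : Tr n (al * (x ^ 3 + u * (e * Tr n ((u ^ 3)⁻¹ * x ^ 9)))) = Tr n (al * x ^ 3) := by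
    rw [e1, hadd, tr_bit _ _ _ (bit_mul he (hbit _)), h]
    ring
  show ((x ^ 3 + u * (e * Tr n ((u ^ 3)⁻¹ * x ^ 9))) +
    u * Tr n (al * (x ^ 3 + u * (e * Tr n ((u ^ 3)⁻¹ * x ^ 9)))) + u * Tr n (la * x)) + u * c0 =
    x ^ 3 + u * (Tr n (al * x ^ 3) + e * Tr n ((u ^ 3)⁻¹ * x ^ 9) + Tr n (la * x) + c0)
  rw [e2]
  ring

/-- the scaling `(x, y) ↦ (mu x, mu^3 y)` -/
def scal (mu : F) (h : mu ≠ 0) : (F × F) ≃+ (F × F) where
  toFun z := (mu * z.1, mu ^ 3 * z.2)
  invFun z := (mu⁻¹ * z.1, (mu ^ 3)⁻¹ * z.2)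
  left_inv := by
    intro z
    refine Prod.ext ?_ ?_
    · show mu⁻¹ * (mu * z.1) = z.1
      rw [inv_mul_cancel_left₀ h]
    · show (mu ^ 3)⁻¹ * (mu ^ 3 * z.2) = z.2
      rw [inv_mul_cancel_left₀ (pow_ne_zero 3 h)]
  right_inv := by
    intro z
    refine Prod.ext ?_ ?_
    · show mu * (mu⁻¹ * z.1) = z.1
      rw [mul_inv_cancel_left₀ h]
    · show (mu ^ 3) * ((mu ^ 3)⁻¹ * z.2) = z.2
      rw [mul_inv_cancel_left₀ (pow_ne_zero 3 h)]
  map_add' := by
    intro z w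
    refine Prod.ext ?_ ?_
    · show mu * (z.1 + w.1) = mu * z.1 + mu * w.1
      ring
    · show mu ^ 3 * (z.2 + w.2) = mu ^ 3 * z.2 + mu ^ 3 * w.2
      ring

theorem scale (n : ℕ) (v mu : F) (hv : v ≠ 0) (h : mu ≠ 0) :
    CCZ (Nf n v) (Nf n (v * mu ^ 3)) := by
  refine ccz_mk (scal mu h) 0 (fun x => mu * x) ?_ ?_
  · intro y
    refine ⟨mu⁻¹ * y, ?_⟩
    show mu * (mu⁻¹ * y) = y
    rw [mul_inv_cancel_left₀ h]
  · intro x
    rw [add_zero]
    refine Prod.ext rfl ?_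
    show mu ^ 3 * (x ^ 3 + v * Tr n ((v ^ 3)⁻¹ * x ^ 9)) =
      (mu * x) ^ 3 + (v * mu ^ 3) * Tr n (((v * mu ^ 3) ^ 3)⁻¹ * (mu * x) ^ 9)
    have e : ((v * mu ^ 3) ^ 3)⁻¹ * (mu * x) ^ 9 = (v ^ 3)⁻¹ * x ^ 9 := by
      field_simp
    rw [e]
    ring

end CLSx

open CLSx in
theorem p_CLS (hT : T_TRC) : T_CLS := by
  intro F _ _ _ n hn hF
  obtain ⟨hadd, -, hbit, -⟩ := hT F n hn hF
  refine ⟨refl', symm', trans', ?_, ?_⟩
  · intro u al e la c0 hu he hc0 h
    have key := solution n hadd hbit u al e la c0 he h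
    refine ⟨?_, ?_⟩
    · intro e0
      have e1 : (fun x : F => x ^ 3 + u * (e * Tr n ((u ^ 3)⁻¹ * x ^ 9))) =
          fun x => x ^ 3 := by
        funext x
        rw [e0]
        ring
      rw [e1] at key
      exact symm' _ _ key
    · intro e0
      have e1 : (fun x : F => x ^ 3 + u * (e * Tr n ((u ^ 3)⁻¹ * x ^ 9))) = Nf n u := by
        funext x
        rw [e0, one_mul]
        rfl
      rw [e1] at key
      exact symm' _ _ key
  · obtain ⟨g, hg⟩ := IsCyclic.exists_generator (α := Fˣ)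
    refine ⟨(g : F), Units.ne_zero g, ?_⟩
    intro v hv
    obtain ⟨k, hk⟩ := (Submonoid.mem_powers_iff _ _).mp
      (mem_powers_iff_mem_zpowers.mpr (hg (Units.mk0 v hv)))
    refine ⟨k % 3, Nat.mod_lt _ (by norm_num), ?_⟩
    have e1 : v = (g : F) ^ (k % 3) * ((g : F) ^ (k / 3)) ^ 3 := by
      have h1 : ((g ^ k : Fˣ) : F) = v := by rw [hk]; rfl
      rw [← h1, Units.val_pow_eq_pow_val, ← pow_mul, ← pow_add]
      congr 1
      omega
    have h2 := scale n ((g : F) ^ (k % 3)) ((g : F) ^ (k / 3))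
      (pow_ne_zero _ (Units.ne_zero g)) (pow_ne_zero _ (Units.ne_zero g))
    rw [← e1] at h2
    exact symm' _ _ h2

end Pool.Agent.GSW
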