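import Pool.Agent.GSW.Targets

set_option autoImplicit false

/-!
# COE: the coefficients of a form vanishing on the pairs
-/

namespace Pool.Agent.GSW

open Finset

namespace COEx

variable {F : Type} [Field F]

lemma split (g : ℕ → ℕ → F) (n : ℕ) :
    ∑ p ∈ range n, ∑ q ∈ range n, g p q =
      (∑ q ∈ range n, ∑ p ∈ range q, (g p q + g q p)) + ∑ p ∈ range n, g p p := by
  induction n with
  | zero => simp
  | succ n ih =>
    have h1 : ∀ p, ∑ q ∈ range (n + 1), g p q = (∑ q ∈ range n, g p q) + g p n := fun p =>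
      sum_range_succ (fun q => g p q) n
    simp only [h1]
    rw [sum_range_succ, sum_add_distrib, ih, sum_range_succ (fun p => g p p),
      sum_range_succ (fun q => ∑ p ∈ range q, (g p q + g q p)), sum_add_distrib]
    ring

lemma frob [CharP F 2] (x y : F) (i : ℕ) : (x + y) ^ 2 ^ i = x ^ 2 ^ i + y ^ 2 ^ i :=
  add_pow_char_pow x y 2 i

lemma tele [CharP F 2] (z w : F) (h : z ^ 2 + z = w) (p q : ℕ) (hpq : p ≤ q) :
    z ^ 2 ^ p + z ^ 2 ^ q = ∑ i ∈ Ico p q, w ^ 2 ^ i := by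
  induction q, hpq using Nat.le_induction with
  | base => simp [CharTwo.add_self_eq_zero]
  | succ q hq ih =>
    rw [sum_Ico_succ_top hq, ← ih, ← h, frob]
    have h1 : (z ^ 2) ^ 2 ^ q = z ^ 2 ^ (q + 1) := by
      rw [← pow_mul, pow_succ]; ring_nf
    rw [h1]
    have h2 := CharTwo.add_self_eq_zero (z ^ 2 ^ q)
    linear_combination (-1 : F) * h2

/-- the complement of `[p, q)` -/
def Dc (n p q : ℕ) : Finset ℕ := (range n).filter (fun i => ¬ (p ≤ i ∧ i < q))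

lemma key [CharP F 2] (w : F) (n p q : ℕ) (hpq : p ≤ q) (hq : q ≤ n) :
    (∑ i ∈ Ico p q, w ^ 2 ^ i) * (1 + Tr n w) =
      w ^ 2 ^ p + w ^ 2 ^ q + ∑ i ∈ Ico p q, ∑ j ∈ Dc n p q, w ^ 2 ^ i * w ^ 2 ^ j := by
  have h1 : Tr n w = (∑ i ∈ Ico p q, w ^ 2 ^ i) + ∑ j ∈ Dc n p q, w ^ 2 ^ j := by
    unfold Tr Dc
    rw [← sum_filter_add_sum_filter_not (range n) (fun i => p ≤ i ∧ i < q)]
    congr 1
    apply sum_congr _ (fun _ _ => rfl)
    ext i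
    simp only [mem_filter, mem_range, mem_Ico]
    omega
  have h2 : (∑ i ∈ Ico p q, w ^ 2 ^ i) ^ 2 + ∑ i ∈ Ico p q, w ^ 2 ^ i =
      w ^ 2 ^ p + w ^ 2 ^ q := by
    rw [tele w (w ^ 2 + w) rfl p q hpq]
    rw [sum_congr rfl (fun i _ => frob (w ^ 2) w i), sum_add_distrib]
    congr 1
    rw [sum_pow_char 2]
    apply sum_congr rfl
    intro i _
    rw [← pow_mul, ← pow_mul, mul_comm]
  rw [← sum_mul_sum, h1, ← h2]
  ring

/-- the product with `1 + Tr w` vanishes -/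
lemma prod_zero (hT : T_TRC) [Fintype F] [CharP F 2] (n : ℕ) (hn : 3 ≤ n)
    (hcard : Fintype.card F = 2 ^ n) (u : F) (c : ℕ → ℕ → F) (hc : Cf n c)
    (hv : ∀ a d : F, Ln u a d → ev n c a d = 0) (x : F) (hx : x ≠ 0) :
    (∑ q ∈ range n, ∑ p ∈ range q, c p q * (x ^ (2 ^ p + 2 ^ q) *
      ∑ i ∈ Ico p q, (u * (x ^ 3)⁻¹) ^ 2 ^ i)) * (1 + Tr n (u * (x ^ 3)⁻¹)) = 0 := by
  obtain ⟨-, -, hbit, -, hker, -⟩ := hT F n hn hcard
  rcases hbit (u * (x ^ 3)⁻¹) with h0 | h1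
  · obtain ⟨z, hz⟩ := (hker _).1 h0
    have hL : Ln u x (x * z) := by
      unfold Ln
      have h : x ^ 2 * (x * z) + x * (x * z) ^ 2 = x ^ 3 * (z ^ 2 + z) := by ring
      rw [h, hz]
      field_simp
    have h := hv _ _ hL
    unfold ev at h
    rw [split] at h
    have hd : ∑ p ∈ range n, c p p * x ^ 2 ^ p * (x * z) ^ 2 ^ p = 0 := by
      apply sum_eq_zero
      intro p _
      rw [hc.diag]
      ring
    rw [hd, add_zero] at h
    have h' : ∑ q ∈ range n, ∑ p ∈ range q, c p q * (x ^ (2 ^ p + 2 ^ q) *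
        ∑ i ∈ Ico p q, (u * (x ^ 3)⁻¹) ^ 2 ^ i) = 0 := by
      rw [← h]
      apply sum_congr rfl
      intro q hq
      apply sum_congr rfl
      intro p hp
      rw [mem_range] at hp
      rw [← tele z _ hz p q hp.le, hc.symm q p, pow_add, mul_pow, mul_pow]
      ring
    rw [h', zero_mul]
  · rw [h1, CharTwo.add_self_eq_zero, mul_zero]

lemma mono (u x : F) (hx : x ≠ 0) (k p q i j : ℕ) :
    x ^ (-(1 + (2 : ℤ) ^ k)) * (x ^ (2 ^ p + 2 ^ q) *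
      ((u * (x ^ 3)⁻¹) ^ 2 ^ i * (u * (x ^ 3)⁻¹) ^ 2 ^ j)) =
    u ^ (2 ^ i + 2 ^ j) * x ^ ((2 : ℤ) ^ p + 2 ^ q - 3 * 2 ^ i - 3 * 2 ^ j - 1 - 2 ^ k) := by
  have h1 : ∀ i : ℕ, (u * (x ^ 3)⁻¹) ^ 2 ^ i = u ^ 2 ^ i * x ^ (-(3 * (2 : ℤ) ^ i)) := by
    intro i
    rw [mul_pow, zpow_neg]
    congr 1
    rw [inv_pow, ← pow_mul]
    congr 1
    rw [← zpow_natCast]
    congr 1
  have h2 : x ^ (2 ^ p + 2 ^ q) = x ^ ((2 : ℤ) ^ p + 2 ^ q) := by
    rw [← zpow_natCast]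
    congr 1
  have h3 : (2 : ℤ) ^ p + 2 ^ q - 3 * 2 ^ i - 3 * 2 ^ j - 1 - 2 ^ k =
      -(1 + (2 : ℤ) ^ k) + (((2 : ℤ) ^ p + 2 ^ q) + (-(3 * (2 : ℤ) ^ i) + -(3 * (2 : ℤ) ^ j))) := by
    ring
  rw [h3, zpow_add₀ hx, zpow_add₀ hx ((2 : ℤ) ^ p + 2 ^ q), zpow_add₀ hx (-(3 * (2 : ℤ) ^ i)),
    h1, h1, h2, pow_add]
  ring

lemma mono1 (u x : F) (hx : x ≠ 0) (k p q i : ℕ) :
    x ^ (-(1 + (2 : ℤ) ^ k)) * (x ^ (2 ^ p + 2 ^ q) * (u * (x ^ 3)⁻¹) ^ 2 ^ i) =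
    u ^ 2 ^ i * x ^ ((2 : ℤ) ^ p + 2 ^ q - 3 * 2 ^ i - 1 - 2 ^ k) := by
  have h1 : ∀ i : ℕ, (u * (x ^ 3)⁻¹) ^ 2 ^ i = u ^ 2 ^ i * x ^ (-(3 * (2 : ℤ) ^ i)) := by
    intro i
    rw [mul_pow, zpow_neg]
    congr 1
    rw [inv_pow, ← pow_mul]
    congr 1
    rw [← zpow_natCast]
    congr 1
  have h2 : x ^ (2 ^ p + 2 ^ q) = x ^ ((2 : ℤ) ^ p + 2 ^ q) := by
    rw [← zpow_natCast]
    congr 1
  have h3 : (2 : ℤ) ^ p + 2 ^ q - 3 * 2 ^ i - 1 - 2 ^ k =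
      -(1 + (2 : ℤ) ^ k) + (((2 : ℤ) ^ p + 2 ^ q) + -(3 * (2 : ℤ) ^ i)) := by
    ring
  rw [h3, zpow_add₀ hx, zpow_add₀ hx ((2 : ℤ) ^ p + 2 ^ q), h1, h2]
  ring

/-- the sum over the units for one pair `p < q` -/
lemma evalpq (hN : T_NUM) (hS : T_SMF) [Fintype F] [DecidableEq F] [CharP F 2] (n : ℕ)
    (hn : 7 ≤ n) (hcard : Fintype.card F = 2 ^ n) (u : F) (k p q : ℕ) (hk : 2 ≤ k)
    (hkn : 2 * k ≤ n) (hpq : p < q) (hq : q < n) :
    ∑ x : Fˣ, (x : F) ^ (-(1 + (2 : ℤ) ^ k)) * ((x : F) ^ (2 ^ p + 2 ^ q) *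
      ((u * ((x : F) ^ 3)⁻¹) ^ 2 ^ p + (u * ((x : F) ^ 3)⁻¹) ^ 2 ^ q +
        ∑ i ∈ Ico p q, ∑ j ∈ Dc n p q,
          (u * ((x : F) ^ 3)⁻¹) ^ 2 ^ i * (u * ((x : F) ^ 3)⁻¹) ^ 2 ^ j)) =
    (if p = 2 ∧ q = k + 2 then u ^ (2 ^ k + 1) else 0) +
      (if k = 3 ∧ p = 1 ∧ q = 4 then u ^ 3 else 0) := by
  obtain ⟨hA, hB, hC⟩ := hN n k p q hn hk hkn hpq hq
  have e0 : ∀ x : Fˣ, (x : F) ^ (-(1 + (2 : ℤ) ^ k)) * ((x : F) ^ (2 ^ p + 2 ^ q) *
      ((u * ((x : F) ^ 3)⁻¹) ^ 2 ^ p + (u * ((x : F) ^ 3)⁻¹) ^ 2 ^ q +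
        ∑ i ∈ Ico p q, ∑ j ∈ Dc n p q,
          (u * ((x : F) ^ 3)⁻¹) ^ 2 ^ i * (u * ((x : F) ^ 3)⁻¹) ^ 2 ^ j)) =
      u ^ 2 ^ p * (x : F) ^ ((2 : ℤ) ^ p + 2 ^ q - 3 * 2 ^ p - 1 - 2 ^ k) +
      u ^ 2 ^ q * (x : F) ^ ((2 : ℤ) ^ p + 2 ^ q - 3 * 2 ^ q - 1 - 2 ^ k) +
      ∑ i ∈ Ico p q, ∑ j ∈ Dc n p q, u ^ (2 ^ i + 2 ^ j) *
        (x : F) ^ ((2 : ℤ) ^ p + 2 ^ q - 3 * 2 ^ i - 3 * 2 ^ j - 1 - 2 ^ k) := by
    intro x
    rw [← mono1 u x x.ne_zero, ← mono1 u x x.ne_zero, mul_add, mul_add, mul_add, mul_add]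
    congr 1
    simp only [mul_sum]
    apply sum_congr rfl
    intro i _
    apply sum_congr rfl
    intro j _
    rw [← mono u x x.ne_zero]
  rw [sum_congr rfl (fun x _ => e0 x), sum_add_distrib, sum_add_distrib, ← mul_sum, ← mul_sum,
    hS F n (by omega) hcard, hS F n (by omega) hcard, if_neg hB, if_neg hC, mul_zero, mul_zero,
    zero_add, zero_add, sum_comm]
  have e1 : ∀ i ∈ Ico p q, ∑ x : Fˣ, ∑ j ∈ Dc n p q, u ^ (2 ^ i + 2 ^ j) *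
      (x : F) ^ ((2 : ℤ) ^ p + 2 ^ q - 3 * 2 ^ i - 3 * 2 ^ j - 1 - 2 ^ k) =
      ∑ j ∈ Dc n p q, u ^ (2 ^ i + 2 ^ j) *
        ((if (p = 2 ∧ q = k + 2) ∧ i = k ∧ j = 0 then 1 else 0) +
          (if (k = 3 ∧ p = 1 ∧ q = 4) ∧ i = 1 ∧ j = 0 then 1 else 0)) := by
    intro i hi
    rw [sum_comm]
    apply sum_congr rfl
    intro j hj
    rw [← mul_sum, hS F n (by omega) hcard]
    congr 1
    simp only [mem_Ico] at hi
    simp only [Dc, mem_filter, mem_range] at hj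
    have hh := hA i j hi.1 hi.2 hj.1 (by omega)
    by_cases h1 : (p = 2 ∧ q = k + 2) ∧ i = k ∧ j = 0
    · obtain ⟨⟨rfl, rfl⟩, rfl, rfl⟩ := h1
      rw [if_pos, if_pos, if_neg, add_zero]
      · omega
      · exact ⟨⟨rfl, rfl⟩, rfl, rfl⟩
      · have : (2 : ℤ) ^ 2 + 2 ^ (i + 2) - 3 * 2 ^ i - 3 * 2 ^ 0 - 1 - 2 ^ i = 0 := by
          rw [pow_add]; ring
        rw [this]
        exact dvd_zero _
    · rw [if_neg h1, zero_add]
      by_cases h2 : (k = 3 ∧ p = 1 ∧ q = 4) ∧ i = 1 ∧ j = 0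
      · rw [if_pos h2, if_pos]
        obtain ⟨⟨rfl, rfl, rfl⟩, rfl, rfl⟩ := h2
        norm_num
      · rw [if_neg h2, if_neg]
        intro hd
        rcases hh hd with h | h
        · exact h1 ⟨⟨h.1, h.2.1⟩, h.2.2.1, h.2.2.2⟩
        · exact h2 ⟨⟨h.1, h.2.1, h.2.2.1⟩, h.2.2.2.1, h.2.2.2.2⟩
  rw [sum_congr rfl e1]
  simp only [mul_add, sum_add_distrib]
  congr 1
  · by_cases h : p = 2 ∧ q = k + 2
    · rw [if_pos h]
      obtain ⟨rfl, rfl⟩ := h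
      rw [sum_eq_single_of_mem k, sum_eq_single_of_mem 0]
      · simp
      · simp only [Dc, mem_filter, mem_range]
        omega
      · intro j _ hj
        rw [if_neg (fun hh => hj hh.2.2), mul_zero]
      · simp only [mem_Ico]
        omega
      · intro i _ hi
        apply sum_eq_zero
        intro j _
        rw [if_neg (fun hh => hi hh.2.1), mul_zero]
    · rw [if_neg h]
      apply sum_eq_zero
      intro i _
      apply sum_eq_zero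
      intro j _
      rw [if_neg (fun hh => h hh.1), mul_zero]
  · by_cases h : k = 3 ∧ p = 1 ∧ q = 4
    · rw [if_pos h]
      obtain ⟨rfl, rfl, rfl⟩ := h
      rw [sum_eq_single_of_mem 1, sum_eq_single_of_mem 0]
      · simp
      · simp only [Dc, mem_filter, mem_range]
        omega
      · intro j _ hj
        rw [if_neg (fun hh => hj hh.2.2), mul_zero]
      · simp only [mem_Ico]
        omega
      · intro i _ hi
        apply sum_eq_zero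
        intro j _
        rw [if_neg (fun hh => hi hh.2.1), mul_zero]
    · rw [if_neg h]
      apply sum_eq_zero
      intro i _
      apply sum_eq_zero
      intro j _
      rw [if_neg (fun hh => h hh.1), mul_zero]

lemma total (hN : T_NUM) (hT : T_TRC) (hS : T_SMF) [Fintype F] [CharP F 2] (n : ℕ)
    (hn : 7 ≤ n) (hcard : Fintype.card F = 2 ^ n) (u : F) (c : ℕ → ℕ → F) (hc : Cf n c)
    (hv : ∀ a d : F, Ln u a d → ev n c a d = 0) (k : ℕ) (hk : 2 ≤ k) (hkn : 2 * k ≤ n) :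
    ∑ q ∈ range n, ∑ p ∈ range q, c p q *
      ((if p = 2 ∧ q = k + 2 then u ^ (2 ^ k + 1) else 0) +
        (if k = 3 ∧ p = 1 ∧ q = 4 then u ^ 3 else 0)) = 0 := by
  classical
  have h0 : ∑ x : Fˣ, (x : F) ^ (-(1 + (2 : ℤ) ^ k)) *
      ((∑ q ∈ range n, ∑ p ∈ range q, c p q * ((x : F) ^ (2 ^ p + 2 ^ q) *
      ∑ i ∈ Ico p q, (u * ((x : F) ^ 3)⁻¹) ^ 2 ^ i)) *
        (1 + Tr n (u * ((x : F) ^ 3)⁻¹))) = 0 := by
    apply sum_eq_zero
    intro x _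
    rw [prod_zero hT n (by omega) hcard u c hc hv x x.ne_zero, mul_zero]
  refine Eq.trans ?_ h0
  have e : ∀ x : Fˣ, (x : F) ^ (-(1 + (2 : ℤ) ^ k)) *
      ((∑ q ∈ range n, ∑ p ∈ range q, c p q * ((x : F) ^ (2 ^ p + 2 ^ q) *
      ∑ i ∈ Ico p q, (u * ((x : F) ^ 3)⁻¹) ^ 2 ^ i)) *
        (1 + Tr n (u * ((x : F) ^ 3)⁻¹))) =
      ∑ q ∈ range n, ∑ p ∈ range q, c p q * ((x : F) ^ (-(1 + (2 : ℤ) ^ k)) *
        ((x : F) ^ (2 ^ p + 2 ^ q) *
      ((u * ((x : F) ^ 3)⁻¹) ^ 2 ^ p + (u * ((x : F) ^ 3)⁻¹) ^ 2 ^ q +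
        ∑ i ∈ Ico p q, ∑ j ∈ Dc n p q,
          (u * ((x : F) ^ 3)⁻¹) ^ 2 ^ i * (u * ((x : F) ^ 3)⁻¹) ^ 2 ^ j))) := by
    intro x
    rw [sum_mul, mul_sum]
    apply sum_congr rfl
    intro q hq
    rw [sum_mul, mul_sum]
    apply sum_congr rfl
    intro p hp
    rw [mem_range] at hp hq
    rw [← key (u * ((x : F) ^ 3)⁻¹) n p q hp.le hq.le]
    ring
  rw [sum_congr rfl (fun x _ => e x), sum_comm]
  apply sum_congr rfl
  intro q hq
  rw [sum_comm]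
  apply sum_congr rfl
  intro p hp
  rw [mem_range] at hp hq
  rw [← mul_sum, evalpq hN hS n hn hcard u k p q hk hkn hp hq]

end COEx

theorem p_COE (hN : T_NUM) (hT : T_TRC) (hS : T_SMF) : T_COE := by
  intro F _ _ _ n hn hcard u c hu hc hv
  constructor
  · intro k hk hkn hk3
    have h := COEx.total hN hT hS n hn hcard u c hc hv k hk hkn
    rw [sum_eq_single_of_mem (k + 2), sum_eq_single_of_mem 2] at h
    · rw [if_pos ⟨rfl, rfl⟩, if_neg (fun hh => hk3 hh.1), add_zero] at h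
      exact (mul_eq_zero.1 h).resolve_right (pow_ne_zero _ hu)
    · rw [mem_range]; omega
    · intro p _ hp
      rw [if_neg (fun hh => hp hh.1), if_neg (fun hh => hk3 hh.1), add_zero, mul_zero]
    · rw [mem_range]; omega
    · intro q _ hq
      apply sum_eq_zero
      intro p _
      rw [if_neg (fun hh => hq hh.2), if_neg (fun hh => hk3 hh.1), add_zero, mul_zero]
  · have h := COEx.total hN hT hS n hn hcard u c hc hv 3 (by norm_num) (by omega)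
    have h1 : ∑ q ∈ range n, ∑ p ∈ range q, c p q *
        (if p = 2 ∧ q = 3 + 2 then u ^ (2 ^ 3 + 1) else 0) = c 2 5 * u ^ 9 := by
      rw [sum_eq_single_of_mem 5, sum_eq_single_of_mem 2]
      · simp
      · rw [mem_range]; omega
      · intro p _ hp
        rw [if_neg (fun hh => hp hh.1), mul_zero]
      · rw [mem_range]; omega
      · intro q _ hq
        apply sum_eq_zero
        intro p _
        rw [if_neg (fun hh => hq hh.2), mul_zero]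
    have h2 : ∑ q ∈ range n, ∑ p ∈ range q, c p q *
        (if 3 = 3 ∧ p = 1 ∧ q = 4 then u ^ 3 else 0) = c 1 4 * u ^ 3 := by
      rw [sum_eq_single_of_mem 4, sum_eq_single_of_mem 1]
      · simp
      · rw [mem_range]; omega
      · intro p _ hp
        rw [if_neg (fun hh => hp hh.2.1), mul_zero]
      · rw [mem_range]; omega
      · intro q _ hq
        apply sum_eq_zero
        intro p _
        rw [if_neg (fun hh => hq hh.2.2), mul_zero]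
    rw [← h1, ← h2, ← sum_add_distrib]
    refine Eq.trans ?_ h
    apply sum_congr rfl
    intro q _
    rw [← sum_add_distrib]
    apply sum_congr rfl
    intro p _
    rw [mul_add]

end Pool.Agent.GSW
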