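import Pool.Agent.GSW.Targets

/-!
# The third derivatives vanish (MP_d7c7d1_co)

Downward induction on the order of the derivatives.
-/

set_option autoImplicit false

namespace Pool.Agent.GSW

open Finset

namespace DEGx

section

variable {F : Type} [Field F]

theorem der_comm (a b : F) (f : F → F) : der a (der b f) = der b (der a f) := by
  funext x
  simp only [der]
  rw [show x + a + b = x + b + a by ring]
  ring

theorem ders_comm (a : F) (f : F → F) (l : List F) : der a (ders l f) = ders l (der a f) := by
  induction l with
  | nil => rfl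
  | cons b l ih =>
    show der a (der b (ders l f)) = der b (ders l (der a f))
    rw [der_comm, ih]

theorem der_zero (a : F) {f : F → F} (h : ∀ x, f x = 0) (x : F) : der a f x = 0 := by
  simp only [der, h, add_zero]

theorem ders_zero (l : List F) {f : F → F} (h : ∀ x, f x = 0) : ∀ x, ders l f x = 0 := by
  induction l with
  | nil => exact h
  | cons b l ih => exact der_zero b ih

variable [CharP F 2]

theorem two_zero : (2 : F) = 0 := CharTwo.two_eq_zero

theorem der_self (a : F) (f : F → F) (x : F) : der a (der a f) x = 0 := by
  have h2 : (2 : F) = 0 := two_zero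
  have h1 : x + a + a = x := by linear_combination a * h2
  simp only [der]
  rw [h1]
  linear_combination (f x + f (x + a)) * h2

theorem der_add (a b : F) (f : F → F) (x : F) :
    der (a + b) f x = der a f x + der b f x + der a (der b f) x := by
  have h2 : (2 : F) = 0 := two_zero
  simp only [der]
  rw [show x + (a + b) = x + a + b by ring]
  linear_combination (-(f x) - f (x + a) - f (x + b)) * h2

theorem bit_add {a b : F} (ha : Bit a) (hb : Bit b) : Bit (a + b) := by
  have h2 : (2 : F) = 0 := two_zero
  rcases ha with rfl | rfl <;> rcases hb with rfl | rfl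
  · exact Or.inl (by ring)
  · exact Or.inr (by ring)
  · exact Or.inr (by ring)
  · exact Or.inl (by linear_combination h2)

theorem bit_der (a : F) {f : F → F} (h : ∀ x, Bit (f x)) (x : F) : Bit (der a f x) :=
  bit_add (h _) (h _)

theorem bit_ders (l : List F) {f : F → F} (h : ∀ x, Bit (f x)) : ∀ x, Bit (ders l f x) := by
  induction l with
  | nil => exact h
  | cons b l ih => exact bit_der b ih

/-- A function with zero derivatives is constant. -/
theorem const_of {f : F → F} (h : ∀ v, der v f 0 = 0) (v : F) : f v = f 0 := by
  have h2 : (2 : F) = 0 := two_zero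
  have h1 := h v
  simp only [der, zero_add] at h1
  linear_combination h1 - f 0 * h2

end

theorem step (h1 : T_TRI) {F : Type} [Field F] [Fintype F] [CharP F 2] {n : ℕ} (hn : 7 ≤ n)
    (hF : Fintype.card F = 2 ^ n) {u : F} {f : F → F} (hu : u ≠ 0) (hf : ∀ x, Bit (f x))
    (hL : ∀ a d x : F, Ln u a d → der a (der d f) x = 0) (k : ℕ)
    (hk : ∀ l : List F, l.length = k + 4 → ∀ x, ders l f x = 0) :
    ∀ l : List F, l.length = k + 3 → ∀ x, ders l f x = 0 := by
  intro l' hl' v
  obtain ⟨x, l1, rfl⟩ : ∃ x l1, l' = x :: l1 := by
    cases l' with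
    | nil => simp at hl'
    | cons x l1 => exact ⟨x, l1, rfl⟩
  obtain ⟨y, l2, rfl⟩ : ∃ x l2, l1 = x :: l2 := by
    cases l1 with
    | nil => simp at hl'
    | cons x l1 => exact ⟨x, l1, rfl⟩
  obtain ⟨z, l, rfl⟩ : ∃ x l3, l2 = x :: l3 := by
    cases l2 with
    | nil => simp at hl'
    | cons x l1 => exact ⟨x, l1, rfl⟩
  have hl : l.length = k := by simpa using hl'
  -- fourth derivatives of `g`
  have h4 : ∀ a b c d w : F, der a (der b (der c (der d (ders l f)))) w = 0 := by
    intro a b c d w
    exact hk (a :: b :: c :: d :: l) (by simp [hl]) w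
  have hconst : ∀ a b c w : F,
      der a (der b (der c (ders l f))) w = der a (der b (der c (ders l f))) 0 := by
    intro a b c w
    exact const_of (fun w' => h4 w' a b c 0) w
  have hadd : ∀ a a' b c : F, der (a + a') (der b (der c (ders l f))) 0 =
      der a (der b (der c (ders l f))) 0 + der a' (der b (der c (ders l f))) 0 := by
    intro a a' b c
    rw [der_add, h4, add_zero]
  have hcyc : ∀ a b c : F, der a (der b (der c (ders l f))) = der c (der b (der a (ders l f))) := by
    intro a b c
    rw [der_comm b c, der_comm a c, der_comm a b]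
  have key := h1 F n hn hF u (fun a b c => der a (der b (der c (ders l f))) 0) hu
    (fun c => ⟨fun a b => bit_der a (bit_der b (bit_der c (bit_ders l hf))) 0,
      fun a a' b => hadd a a' b c,
      fun a b b' => by
        rw [der_comm a (b + b'), der_comm a b, der_comm a b']
        exact hadd b b' a c,
      fun a => der_self a _ 0⟩)
    (fun a b c c' => by
      rw [hcyc a b (c + c'), hcyc a b c, hcyc a b c']
      exact hadd c c' b a)
    (fun a c => der_zero a (fun w => der_self c _ w) 0)
    (fun a c => by
      rw [der_comm a c]
      exact der_self c _ 0)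
    (fun a d c hLn => by
      rw [der_comm d c, der_comm a c]
      refine der_zero c (fun w => ?_) 0
      rw [ders_comm d, ders_comm a]
      exact ders_zero l (fun w' => hL a d w' hLn) w)
    x y z
  show der x (der y (der z (ders l f))) v = 0
  rw [hconst x y z v]
  exact key

end DEGx

theorem p_DEG (h1 : T_TRI) (h2 : T_NIL) : T_DEG := by
  intro F _ _ _ n hn hF u f hu hf hL x y z v
  have hall : ∀ i : ℕ, i + 3 ≤ n + 1 → ∀ l : List F, l.length = (n + 1 - i) → ∀ x,
      ders l f x = 0 := by
    intro i
    induction i with
    | zero =>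
      intro _ l hl x
      exact h2 F n hF f l (by omega) x
    | succ i ih =>
      intro hi l hl x
      obtain ⟨k, hk⟩ : ∃ k, n + 1 - i = k + 4 := ⟨n + 1 - i - 4, by omega⟩
      refine DEGx.step h1 hn hF hu hf hL k (fun l' hl' x' => ih (by omega) l' (by omega) x') l
        (by omega) x
  exact hall (n + 1 - 3) (by omega) [x, y, z] (by simp; omega) v

end Pool.Agent.GSW
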