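import Pool.Agent.GSW.Targets

set_option autoImplicit false

/-!
# FRM: the alternating forms which vanish on all pairs of `x ^ 3` in the direction `u`
-/

namespace Pool.Agent.GSW

open Finset

namespace FRMx

variable {F : Type} [Field F]

lemma shift {n : ℕ} (hn : 1 ≤ n) {c : ℕ → ℕ → F} (hc : Cf n c) (i : ℕ) {p q : ℕ} (hp : p < n)
    (hq : q < n) : c ((p + i) % n) ((q + i) % n) = c p q ^ 2 ^ i := by
  induction i with
  | zero => simp [Nat.mod_eq_of_lt hp, Nat.mod_eq_of_lt hq]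
  | succ i ih =>
    have h := hc.frob ((p + i) % n) (Nat.mod_lt _ (by omega)) ((q + i) % n)
      (Nat.mod_lt _ (by omega))
    rw [Nat.mod_add_mod, Nat.mod_add_mod] at h
    rw [← Nat.add_assoc, ← Nat.add_assoc, h, ih, ← pow_mul, pow_succ]

lemma pow_iter {n : ℕ} (hx : ∀ x : F, x ^ 2 ^ n = x) (k : ℕ) (x : F) : x ^ 2 ^ (n * k) = x := by
  induction k with
  | zero => simp
  | succ k ih => rw [Nat.mul_succ, pow_add, pow_mul, ih, hx]

lemma pow_mod {n : ℕ} (hx : ∀ x : F, x ^ 2 ^ n = x) (m : ℕ) (x : F) :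
    x ^ 2 ^ (m % n) = x ^ 2 ^ m := by
  conv_rhs => rw [← Nat.mod_add_div m n, pow_add, pow_mul, pow_iter hx]

/-- the vanishing coefficients -/
lemma coef {n : ℕ} (hn : 7 ≤ n) {c : ℕ → ℕ → F} (hc : Cf n c)
    (h : ∀ k, 2 ≤ k → 2 * k ≤ n → k ≠ 3 → c 2 (k + 2) = 0) {i : ℕ} (hi : i < n) (h1 : i ≠ 1)
    (h3 : i ≠ 3) (h4 : i ≠ n - 3) (h5 : i ≠ n - 1) : c i 0 = 0 := by
  have key : ∀ k, 2 ≤ k → 2 * k ≤ n → k ≠ 3 → c 0 k = 0 := by
    intro k k2 kn k3
    have hs := shift (by omega) hc 2 (p := 0) (q := k) (by omega) (by omega)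
    rw [Nat.mod_eq_of_lt (by omega), Nat.mod_eq_of_lt (by omega), zero_add, h k k2 kn k3] at hs
    exact eq_zero_of_pow_eq_zero hs.symm
  rcases Nat.eq_zero_or_pos i with h0 | h0
  · rw [h0, hc.diag]
  rcases le_or_gt (2 * i) n with h2 | h2
  · rw [hc.symm]
    exact key i (by omega) h2 h3
  · have hk := key (n - i) (by omega) (by omega) (by omega)
    have hs := shift (by omega) hc i (p := 0) (q := n - i) (by omega) (by omega)
    rw [hk, zero_add, Nat.mod_eq_of_lt hi, Nat.sub_add_cancel hi.le, Nat.mod_self,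
      zero_pow (by positivity)] at hs
    exact hs

/-- the form as a trace -/
lemma ev_tr [CharP F 2] {n : ℕ} (hn : 1 ≤ n) (hx : ∀ x : F, x ^ 2 ^ n = x) {c : ℕ → ℕ → F}
    (hc : Cf n c) (x y : F) :
    ev n c x y = Tr n (y * ∑ i ∈ range n, c i 0 * x ^ 2 ^ i) := by
  have : Fact (Nat.Prime 2) := ⟨Nat.prime_two⟩
  unfold ev Tr
  rw [Finset.sum_comm]
  refine Finset.sum_congr rfl fun q hq => ?_
  rw [mem_range] at hq
  rw [mul_pow, sum_pow_char_pow, Finset.mul_sum]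
  symm
  refine Finset.sum_nbij' (fun i => (i + q) % n) (fun p => (p + (n - q)) % n) ?_ ?_ ?_ ?_ ?_
  · intro i _
    exact mem_range.2 (Nat.mod_lt _ (by omega))
  · intro i _
    exact mem_range.2 (Nat.mod_lt _ (by omega))
  · intro i hi
    rw [mem_range] at hi
    show ((i + q) % n + (n - q)) % n = i
    rw [Nat.mod_add_mod, show i + q + (n - q) = i + n by omega, Nat.add_mod_right,
      Nat.mod_eq_of_lt hi]
  · intro i hi
    rw [mem_range] at hi
    show ((i + (n - q)) % n + q) % n = i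
    rw [Nat.mod_add_mod, show i + (n - q) + q = i + n by omega, Nat.add_mod_right,
      Nat.mod_eq_of_lt hi]
  · intro i hi
    rw [mem_range] at hi
    have h := shift hn hc q (p := i) (q := 0) hi (by omega)
    rw [zero_add, Nat.mod_eq_of_lt hq] at h
    rw [h, pow_mod hx, mul_pow, ← pow_mul, pow_add]
    ring

/-- the second form at a pair -/
lemma pair [CharP F 2] {u a d : F} (hu : u ≠ 0) (h : Ln u a d) :
    (u ^ 3)⁻¹ * (a ^ 8 * d + a * d ^ 8) =
      ((a + d) ^ 3 / u) ^ 2 + (a + d) ^ 3 / u + ((a / (a + d)) ^ 2 + a / (a + d)) := by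
  have h2 : (2 : F) = 0 := CharTwo.two_eq_zero
  have hf : u = a * d * (a + d) := by
    rw [← h]
    ring
  have ha : a ≠ 0 := by
    rintro rfl
    apply hu
    rw [hf]
    ring
  have hd : d ≠ 0 := by
    rintro rfl
    apply hu
    rw [hf]
    ring
  have hs : a + d ≠ 0 := by
    intro h0
    apply hu
    rw [hf, h0, mul_zero]
  rw [hf]
  field_simp
  linear_combination (-(4 * a * d ^ 6 + 13 * a ^ 2 * d ^ 5 + 23 * a ^ 3 * d ^ 4 +
    24 * a ^ 4 * d ^ 3 + 14 * a ^ 5 * d ^ 2 + 4 * a ^ 6 * d)) * h2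

/-- the trace of the second form at a pair -/
lemma tr_pair [CharP F 2] {n : ℕ} (t1 : ∀ x y : F, Tr n (x + y) = Tr n x + Tr n y)
    (t2 : ∀ x : F, Tr n (x ^ 2) = Tr n x) {u a d : F} (hu : u ≠ 0) (h : Ln u a d) :
    Tr n ((u ^ 3)⁻¹ * (a ^ 8 * d + a * d ^ 8)) = 0 := by
  rw [pair hu h, t1, t1, t1, t2, t2, CharTwo.add_self_eq_zero, CharTwo.add_self_eq_zero, add_zero]

/-- the sum over the four nonzero coefficients -/
lemma four {n : ℕ} (hn : 7 ≤ n) (f : ℕ → F)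
    (h : ∀ i < n, i ≠ 1 → i ≠ 3 → i ≠ n - 3 → i ≠ n - 1 → f i = 0) :
    ∑ i ∈ range n, f i = f 1 + (f 3 + (f (n - 3) + f (n - 1))) := by
  have h1 : ∑ i ∈ ({1, 3, n - 3, n - 1} : Finset ℕ), f i = ∑ i ∈ range n, f i := by
    refine Finset.sum_subset ?_ ?_
    · intro i hi
      simp only [mem_insert, mem_singleton] at hi
      rw [mem_range]
      omega
    · intro i hi hni
      simp only [mem_insert, mem_singleton, not_or] at hni
      exact h i (mem_range.1 hi) hni.1 hni.2.1 hni.2.2.1 hni.2.2.2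
  rw [← h1, Finset.sum_insert, Finset.sum_insert, Finset.sum_insert, Finset.sum_singleton]
  · simp only [mem_singleton]
    omega
  · simp only [mem_insert, mem_singleton]
    omega
  · simp only [mem_insert, mem_singleton]
    omega

/-- the normal form of the form -/
lemma main [CharP F 2] {n : ℕ} (hn : 7 ≤ n) (hx : ∀ x : F, x ^ 2 ^ n = x)
    (t1 : ∀ x y : F, Tr n (x + y) = Tr n x + Tr n y) (t2 : ∀ x : F, Tr n (x ^ 2) = Tr n x)
    {c : ℕ → ℕ → F} (hc : Cf n c)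
    (h : ∀ k, 2 ≤ k → 2 * k ≤ n → k ≠ 3 → c 2 (k + 2) = 0) (x y : F) :
    ev n c x y = Tr n (c 1 0 * (x ^ 2 * y + x * y ^ 2)) +
      Tr n (c 3 0 * (x ^ 8 * y + x * y ^ 8)) := by
  have t8 : ∀ z : F, Tr n (z ^ 8) = Tr n z := by
    intro z
    rw [show z ^ 8 = ((z ^ 2) ^ 2) ^ 2 by ring, t2, t2, t2]
  rw [ev_tr (by omega) hx hc, four hn (fun i => c i 0 * x ^ 2 ^ i)
    (fun i hi h1 h3 h4 h5 => by
      show c i 0 * x ^ 2 ^ i = 0
      rw [coef hn hc h hi h1 h3 h4 h5, zero_mul])]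
  have e1 : Tr n (y * (c (n - 1) 0 * x ^ 2 ^ (n - 1))) = Tr n (c 1 0 * (x * y ^ 2)) := by
    have hs := shift (by omega) hc 1 (p := n - 1) (q := 0) (by omega) (by omega)
    rw [Nat.sub_add_cancel (by omega), Nat.mod_self, zero_add, Nat.mod_eq_of_lt (by omega),
      pow_one, hc.symm] at hs
    have hp : (x ^ 2 ^ (n - 1)) ^ 2 = x := by
      rw [← pow_mul, ← pow_succ, Nat.sub_add_cancel (by omega), hx]
    rw [← t2, mul_pow, mul_pow, hp, ← hs]
    congr 1
    ring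
  have e3 : Tr n (y * (c (n - 3) 0 * x ^ 2 ^ (n - 3))) = Tr n (c 3 0 * (x * y ^ 8)) := by
    have hs := shift (by omega) hc 3 (p := n - 3) (q := 0) (by omega) (by omega)
    rw [Nat.sub_add_cancel (by omega), Nat.mod_self, zero_add, Nat.mod_eq_of_lt (by omega),
      hc.symm] at hs
    norm_num at hs
    have hp : (x ^ 2 ^ (n - 3)) ^ 8 = x := by
      rw [← pow_mul, show 2 ^ (n - 3) * 8 = 2 ^ n by
        rw [show (8 : ℕ) = 2 ^ 3 by norm_num, ← pow_add, Nat.sub_add_cancel (by omega)], hx]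
    rw [← t8, mul_pow, mul_pow, hp, ← hs]
    congr 1
    ring
  have e0 : Tr n (y * (c 1 0 * x ^ 2 ^ 1)) = Tr n (c 1 0 * (x ^ 2 * y)) := by
    congr 1
    ring
  have e2 : Tr n (y * (c 3 0 * x ^ 2 ^ 3)) = Tr n (c 3 0 * (x ^ 8 * y)) := by
    congr 1
    ring
  rw [mul_add, mul_add, mul_add, t1, t1, t1, e0, e1, e2, e3, mul_add, mul_add, t1, t1]
  ring

end FRMx

open FRMx in
theorem p_FRM (_h1 : T_LIN) (h2 : T_TRC) (h3 : T_REP) (h4 : T_COE) : T_FRM := by
  intro F _ _ _ n hn hF u b hu hb hab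
  obtain ⟨t1, t2, -, -, -, -, -, t8⟩ := h2 F n (by omega) hF
  obtain ⟨c, hc, hbc⟩ := h3 F n (by omega) hF b hb
  obtain ⟨hk, hk3⟩ := h4 F n hn hF u c hu hc (fun a d had => by rw [← hbc]; exact hab a d had)
  have hx : ∀ x : F, x ^ 2 ^ n = x := fun x => by
    rw [← hF]
    exact FiniteField.pow_card x
  have hb2 : ∀ x y, b x y = Tr n (c 1 0 * (x ^ 2 * y + x * y ^ 2)) +
      Tr n (c 3 0 * (x ^ 8 * y + x * y ^ 8)) := fun x y => by
    rw [hbc, main hn hx t1 t2 hc hk]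
  have c14 : c 1 4 = c 3 0 ^ 2 := by
    have hs := shift (by omega) hc 1 (p := 0) (q := 3) (by omega) (by omega)
    rw [Nat.mod_eq_of_lt (by omega), Nat.mod_eq_of_lt (by omega), pow_one, hc.symm 0 3] at hs
    exact hs
  have c25 : c 2 5 = c 3 0 ^ 4 := by
    have hs := shift (by omega) hc 2 (p := 0) (q := 3) (by omega) (by omega)
    rw [Nat.mod_eq_of_lt (by omega), Nat.mod_eq_of_lt (by omega), hc.symm 0 3] at hs
    exact hs
  rw [c14, c25] at hk3
  have he : ∃ e : F, Bit e ∧ ∀ z, Tr n (c 3 0 * z) = e * Tr n ((u ^ 3)⁻¹ * z) := by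
    by_cases hg : c 3 0 = 0
    · refine ⟨0, Or.inl rfl, fun z => ?_⟩
      rw [hg, zero_mul, zero_mul]
      have := t1 0 0
      rw [add_zero, CharTwo.add_self_eq_zero] at this
      exact this
    · refine ⟨1, Or.inr rfl, fun z => ?_⟩
      have h5 : (c 3 0 * u ^ 3 + 1) ^ 2 = 0 := by
        have h6 : (c 3 0 ^ 2 * u ^ 3) * (c 3 0 * u ^ 3 + 1) ^ 2 = 0 := by
          linear_combination hk3 + (c 3 0 ^ 3 * u ^ 6) * (CharTwo.two_eq_zero : (2 : F) = 0)
        rcases mul_eq_zero.1 h6 with h7 | h7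
        · exact absurd h7 (mul_ne_zero (pow_ne_zero _ hg) (pow_ne_zero _ hu))
        · exact h7
      have h6 : c 3 0 * u ^ 3 = 1 := by
        have h7 : c 3 0 * u ^ 3 + 1 = 0 := eq_zero_of_pow_eq_zero h5
        linear_combination h7 - (CharTwo.two_eq_zero : (2 : F) = 0)
      rw [one_mul, eq_inv_of_mul_eq_one_left h6]
  obtain ⟨e, he0, he1⟩ := he
  have hfm : ∀ x y, b x y = Fm n u (c 1 0) e x y := fun x y => by
    rw [hb2, he1]
    rfl
  refine ⟨c 1 0, e, he0, ?_, hfm⟩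
  obtain ⟨a, d, had⟩ := t8 u hu
  have h9 := hab a d had
  rw [hfm] at h9
  unfold Fm at h9
  rw [tr_pair t1 t2 hu had, mul_zero, add_zero, had] at h9
  exact h9

end Pool.Agent.GSW
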