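import Pool.Agent.GSW.Targets

set_option autoImplicit false

/-! LIN: linearized polynomials, uniqueness and existence -/

namespace Pool.Agent.GSW

open Finset

namespace LINx

variable {F : Type} [Field F] [Fintype F]

/-- a linearized polynomial of degree `< 2 ^ n` which vanishes on the field is zero -/
lemma uniq {n : ℕ} (hcard : Fintype.card F = 2 ^ n) (l : ℕ → F)
    (h : ∀ x : F, ∑ i ∈ range n, l i * x ^ 2 ^ i = 0) : ∀ i < n, l i = 0 := by
  classical
  set P : Polynomial F := ∑ i ∈ range n, Polynomial.C (l i) * Polynomial.X ^ 2 ^ i with hP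
  have hdeg : P.natDegree < Fintype.card F := by
    rw [hcard]
    refine lt_of_le_of_lt (b := 2 ^ (n - 1)) ?_ ?_
    · refine Polynomial.natDegree_sum_le_of_forall_le _ _ fun i hi => ?_
      refine (Polynomial.natDegree_C_mul_X_pow_le _ _).trans ?_
      exact Nat.pow_le_pow_right (by norm_num) (by have := mem_range.1 hi; omega)
    · rcases Nat.eq_zero_or_pos n with h0 | h0
      · exfalso
        have h1 : 1 < Fintype.card F := Fintype.one_lt_card
        rw [hcard, h0] at h1
        simp at h1
      · exact Nat.pow_lt_pow_right (by norm_num) (by omega)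
  have hev : ∀ x : F, P.eval x = 0 := by
    intro x
    rw [hP, Polynomial.eval_finsetSum]
    simpa using h x
  have h0 : P = 0 := by
    by_contra hne
    have h1 : (Finset.univ : Finset F).card ≤ P.roots.toFinset.card := by
      refine Finset.card_le_card fun x _ => ?_
      rw [Multiset.mem_toFinset, Polynomial.mem_roots hne]
      exact hev x
    have h2 : P.roots.toFinset.card ≤ P.natDegree :=
      (Multiset.toFinset_card_le _).trans (Polynomial.card_roots' P)
    rw [Finset.card_univ] at h1
    omega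
  intro i hi
  have h1 : P.coeff (2 ^ i) = l i := by
    rw [hP, Polynomial.finsetSum_coeff]
    rw [Finset.sum_eq_single i]
    · rw [Polynomial.coeff_C_mul, Polynomial.coeff_X_pow, if_pos rfl, mul_one]
    · intro j _ hj
      rw [Polynomial.coeff_C_mul, Polynomial.coeff_X_pow, if_neg, mul_zero]
      intro he
      exact hj ((Nat.pow_right_injective le_rfl he).symm)
    · intro hn
      exact absurd (mem_range.2 hi) hn
  rw [← h1, h0, Polynomial.coeff_zero]

/-- the additive map of a linearized polynomial -/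
noncomputable def Ph [CharP F 2] (n : ℕ) (l : Fin n → F) : F →+ F :=
  AddMonoidHom.mk' (fun x => ∑ i, l i * x ^ 2 ^ (i : ℕ)) fun x y => by
    rw [← Finset.sum_add_distrib]
    refine Finset.sum_congr rfl fun i _ => ?_
    rw [add_pow_char_pow, mul_add]

lemma Ph_inj [CharP F 2] {n : ℕ} (hcard : Fintype.card F = 2 ^ n) :
    Function.Injective (Ph (F := F) n) := by
  intro l l' h
  have h1 : ∀ i < n, (fun i : ℕ => if hi : i < n then l ⟨i, hi⟩ - l' ⟨i, hi⟩ else 0) i = 0 := by
    refine uniq hcard _ fun x => ?_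
    rw [Finset.sum_range]
    have h2 : Ph n l x = Ph n l' x := by rw [h]
    have h3 : ∑ i : Fin n, l i * x ^ 2 ^ (i : ℕ) = ∑ i : Fin n, l' i * x ^ 2 ^ (i : ℕ) := h2
    rw [← sub_eq_zero, ← Finset.sum_sub_distrib] at h3
    rw [← h3]
    refine Finset.sum_congr rfl fun i _ => ?_
    simp only [i.2, dif_pos]
    ring
  funext i
  have h2 := h1 i i.2
  simp only [i.2, dif_pos] at h2
  exact sub_eq_zero.1 h2

lemma Ph_surj [CharP F 2] {n : ℕ} (hcard : Fintype.card F = 2 ^ n) :
    Function.Surjective (Ph (F := F) n) := by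
  let _ : Algebra (ZMod 2) F := ZMod.algebra F 2
  have : Module.Finite (ZMod 2) F := Module.Finite.of_finite
  have hfr : Module.finrank (ZMod 2) F = n := by
    have h1 := Module.card_eq_pow_finrank (K := ZMod 2) (V := F)
    rw [hcard, ZMod.card] at h1
    exact (Nat.pow_right_injective le_rfl h1).symm
  have hfV : Module.finrank (ZMod 2) (F →ₗ[ZMod 2] F) = n * n := by
    rw [Module.finrank_linearMap, hfr]
  have : Finite (F →ₗ[ZMod 2] F) := Module.finite_of_finite (ZMod 2)
  have hcV : Nat.card (F →ₗ[ZMod 2] F) = 2 ^ (n * n) := by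
    rw [Module.natCard_eq_pow_finrank (K := ZMod 2), hfV, Nat.card_zmod]
  have hca : Nat.card (Fin n → F) = 2 ^ (n * n) := by
    rw [Nat.card_eq_fintype_card, Fintype.card_fun, Fintype.card_fin, hcard, ← pow_mul]
  have hi : Function.Injective fun l : Fin n → F => (Ph n l).toZModLinearMap 2 := by
    intro l l' h
    refine Ph_inj hcard ?_
    ext x
    exact congrArg (fun f : F →ₗ[ZMod 2] F => f x) h
  have hb := hi.bijective_of_nat_card_le (by rw [hcV, hca])
  intro g
  obtain ⟨l, hl⟩ := hb.2 (g.toZModLinearMap 2)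
  refine ⟨l, ?_⟩
  ext x
  exact congrArg (fun f : F →ₗ[ZMod 2] F => f x) hl

end LINx

open LINx in
/-- linearized polynomials -/
theorem p_LIN : T_LIN := by
  intro F _ _ _ n hn hcard
  refine ⟨uniq hcard, fun c h p hp q hq => ?_, fun g hg => ?_⟩
  · have h1 : ∀ y : F, ∑ q ∈ range n, c p q * y ^ 2 ^ q = 0 := by
      intro y
      refine uniq hcard (fun p => ∑ q ∈ range n, c p q * y ^ 2 ^ q) (fun x => ?_) p hp
      rw [← h x y]
      unfold ev
      refine Finset.sum_congr rfl fun p _ => ?_
      rw [Finset.sum_mul]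
      refine Finset.sum_congr rfl fun q _ => ?_
      ring
    exact uniq hcard (fun q => c p q) h1 q hq
  · obtain ⟨l, hl⟩ := Ph_surj hcard (AddMonoidHom.mk' g hg)
    refine ⟨fun i => if hi : i < n then l ⟨i, hi⟩ else 0, fun x => ?_⟩
    have h1 : Ph n l x = g x := by rw [hl]; rfl
    rw [← h1, Finset.sum_range]
    change ∑ i : Fin n, l i * x ^ 2 ^ (i : ℕ) = _
    refine Finset.sum_congr rfl fun i _ => ?_
    simp only [i.2, dif_pos]

end Pool.Agent.GSW
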