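import Pool.Agent.GSW.Targets

set_option autoImplicit false

/-!
# GSW, target LNV (helper66): the converse for forms
-/

namespace Pool.Agent.GSW

open Finset

namespace LNVx

variable {F : Type} [Field F] [CharP F 2]

/-- the identity: with `s = a + d`, `u = a d s`, `z = s^3 / u + a / s` -/
theorem ident (a d : F) (ha : a ≠ 0) (hd : d ≠ 0) (hs : a + d ≠ 0) :
    ((a + d) ^ 2 / (a * d) + a / (a + d)) ^ 2 + ((a + d) ^ 2 / (a * d) + a / (a + d)) =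
      ((a * d * (a + d)) ^ 3)⁻¹ * (a ^ 8 * d + a * d ^ 8) := by
  have h2 : (2 : F) = 0 := CharTwo.two_eq_zero
  have h1 : ((a + d) ^ 2 / (a * d) + a / (a + d)) ^ 2 + ((a + d) ^ 2 / (a * d) + a / (a + d)) =
      ((a * d * (a + d)) ^ 3)⁻¹ * (((a + d) ^ 7 * (a * d) + a ^ 2 * (a + d) * (a * d) ^ 3 +
        (a + d) ^ 5 * (a * d) ^ 2 + a * (a + d) ^ 2 * (a * d) ^ 3) +
        2 * ((a + d) ^ 4 * (a * d) ^ 2 * a)) := by
    field_simp
    ring
  have h3 : ((a + d) ^ 7 * (a * d) + a ^ 2 * (a + d) * (a * d) ^ 3 +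
        (a + d) ^ 5 * (a * d) ^ 2 + a * (a + d) ^ 2 * (a * d) ^ 3) =
        a ^ 8 * d + a * d ^ 8 := by
    linear_combination (4 * a ^ 2 * d ^ 7 + 13 * a ^ 3 * d ^ 6 + 23 * a ^ 4 * d ^ 5 +
      24 * a ^ 5 * d ^ 4 + 14 * a ^ 6 * d ^ 3 + 4 * a ^ 7 * d ^ 2) * h2
  rw [h1, h3, h2, zero_mul, add_zero]

end LNVx

theorem p_LNV (h : T_TRC) : T_LNV := by
  intro F _ _ _ n hn hF u al e a d hu hal hL
  obtain ⟨-, -, -, -, h5, -, -, -⟩ := h F n hn hF
  unfold Ln at hL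
  have hu' : a * d * (a + d) = u := by rw [← hL]; ring
  have ha : a ≠ 0 := by
    rintro rfl
    exact hu (by rw [← hu']; ring)
  have hd : d ≠ 0 := by
    rintro rfl
    exact hu (by rw [← hu']; ring)
  have hs : a + d ≠ 0 := by
    intro h0
    exact hu (by rw [← hu', h0, mul_zero])
  have h1 : Tr n ((u ^ 3)⁻¹ * (a ^ 8 * d + a * d ^ 8)) = 0 := by
    rw [h5, ← hu']
    exact ⟨_, LNVx.ident a d ha hd hs⟩
  unfold Fm
  rw [hL, hal, h1, mul_zero, add_zero]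

end Pool.Agent.GSW
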