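import Pool.Agent.GSW.Targets

set_option autoImplicit false

/-! GSW-NIL: iterated derivatives of order larger than `n` vanish. -/

namespace Pool.Agent.GSW

open Finset

namespace NILx

variable {F : Type} [Field F] [CharP F 2]

omit [CharP F 2] in
theorem der_comm (a b : F) (g : F → F) (x : F) : der a (der b g) x = der b (der a g) x := by
  unfold der
  rw [add_right_comm x a b]
  ring

theorem der_self (a : F) (g : F → F) (x : F) : der a (der a g) x = 0 := by
  unfold der
  have h : x + a + a = x := by rw [add_assoc, CharTwo.add_self_eq_zero, add_zero]
  rw [h, add_comm (g (x + a)) (g x)]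
  exact CharTwo.add_self_eq_zero _

omit [CharP F 2] in
theorem der_zero_fun {g : F → F} (hg : ∀ x, g x = 0) (a x : F) : der a g x = 0 := by
  unfold der
  rw [hg, hg, add_zero]

theorem der_add (b c : F) (g : F → F) (x : F) :
    der (b + c) g x = der b (der c g) x + der b g x + der c g x := by
  unfold der
  have h1 : g (x + b) + g (x + b) = 0 := CharTwo.add_self_eq_zero _
  have h2 : g (x + c) + g (x + c) = 0 := CharTwo.add_self_eq_zero _
  have h3 : g x + g x = 0 := CharTwo.add_self_eq_zero _
  rw [← add_assoc]
  linear_combination (-1 : F) * h1 - h2 - h3

/-- a derivative in a direction of the list occurs twice -/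
theorem mem {l : List F} {a : F} (ha : a ∈ l) (f : F → F) (x : F) : der a (ders l f) x = 0 := by
  induction l generalizing x with
  | nil => exact absurd ha List.not_mem_nil
  | cons b l ih =>
    change der a (der b (ders l f)) x = 0
    rcases List.mem_cons.1 ha with h | h
    · rw [h]
      exact der_self b _ x
    · rw [der_comm]
      exact der_zero_fun (ih h) b x

/-- the span of a list -/
def Sp (l : List F) : AddSubgroup F := AddSubgroup.closure {x | x ∈ l}

theorem span {l : List F} {a : F} (ha : a ∈ Sp l) (f : F → F) : ∀ x, der a (ders l f) x = 0 := by
  unfold Sp at ha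
  induction ha using AddSubgroup.closure_induction with
  | mem a ha => exact mem ha f
  | zero =>
    intro x
    unfold der
    rw [add_zero]
    exact CharTwo.add_self_eq_zero _
  | add b c _ _ hb hc =>
    intro x
    rw [der_add, hb, hc, der_zero_fun hc]
    simp
  | neg b _ hb =>
    intro x
    rw [CharTwo.neg_eq]
    exact hb x

theorem dicho [Fintype F] (f : F → F) : ∀ l : List F, (∀ x, ders l f x = 0) ∨
    2 ^ l.length ≤ Nat.card (Sp l) := by
  intro l
  induction l with
  | nil =>
    right
    rw [List.length_nil, pow_zero]
    exact Nat.card_pos
  | cons a l ih =>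
    rcases ih with h | h
    · left
      exact der_zero_fun h a
    · by_cases ha : a ∈ Sp l
      · left
        exact span ha f
      · right
        have hle : Sp l ≤ Sp (a :: l) := by
          unfold Sp
          refine AddSubgroup.closure_mono fun x hx => ?_
          exact List.mem_cons_of_mem _ hx
        have hamem : a ∈ Sp (a :: l) := AddSubgroup.subset_closure List.mem_cons_self
        obtain ⟨m, hm⟩ := AddSubgroup.card_dvd_of_le hle
        have hpos : 0 < Nat.card (Sp (a :: l)) := Nat.card_pos
        have hm0 : m ≠ 0 := by
          rintro rfl
          rw [mul_zero] at hm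
          omega
        have hm1 : m ≠ 1 := by
          rintro rfl
          rw [mul_one] at hm
          have heq : Sp l = Sp (a :: l) := AddSubgroup.eq_of_le_of_card_ge hle hm.le
          rw [← heq] at hamem
          exact ha hamem
        rw [List.length_cons, pow_succ, hm]
        exact Nat.mul_le_mul h (by omega)

end NILx

open NILx in
theorem p_NIL : T_NIL := by
  intro F _ _ _ n hn f l hl x
  rcases dicho f l with h | h
  · exact h x
  · exfalso
    have h1 : Nat.card (Sp l) ≤ Nat.card F :=
      Nat.card_le_card_of_injective (fun z : Sp l => (z : F)) Subtype.val_injective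
    rw [Nat.card_eq_fintype_card (α := F), hn] at h1
    have h2 : 2 ^ n < 2 ^ l.length := Nat.pow_lt_pow_right (by norm_num) hl
    omega

end Pool.Agent.GSW
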