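import Pool.Agent.GSW.Targets

set_option autoImplicit false

/-!
# NUM: the number lemma
-/

namespace Pool.Agent.GSW

namespace NUMx

theorem dvd_cases {M v : ℤ} (h : M ∣ v) (h1 : v < M) (h2 : -(2 * M) < v) : v = 0 ∨ v = -M := by
  obtain ⟨s, rfl⟩ := h
  have hM : 0 < M := by linarith
  have s1 : s < 1 := by
    by_contra hc
    nlinarith
  have s2 : -2 < s := by
    by_contra hc
    nlinarith
  obtain rfl | rfl : s = 0 ∨ s = -1 := by omega
  · exact Or.inl (mul_zero _)
  · exact Or.inr (mul_neg_one _)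

theorem le0 {a b : ℕ} (h : a ≤ b) : (2 : ℤ) ^ a ≤ 2 ^ b := pow_le_pow_right₀ (by norm_num) h

theorem le1 {a b : ℕ} (h : a + 1 ≤ b) : 2 * (2 : ℤ) ^ a ≤ 2 ^ b := by
  have := le0 h
  rw [pow_succ] at this
  linarith

theorem le2 {a b : ℕ} (h : a + 2 ≤ b) : 4 * (2 : ℤ) ^ a ≤ 2 ^ b := by
  have := le1 h
  rw [pow_succ] at this
  linarith

theorem le3 {a b : ℕ} (h : a + 3 ≤ b) : 8 * (2 : ℤ) ^ a ≤ 2 ^ b := by
  have := le2 h
  rw [pow_succ] at this
  linarith

theorem le4 {a b : ℕ} (h : a + 4 ≤ b) : 16 * (2 : ℤ) ^ a ≤ 2 ^ b := by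
  have := le3 h
  rw [pow_succ] at this
  linarith

theorem dv {a b : ℕ} (h : a ≤ b) : ∃ x : ℤ, (2 : ℤ) ^ b = 2 ^ a * x := pow_dvd_pow 2 h

theorem inj {a b : ℕ} (h : (2 : ℤ) ^ a = 2 ^ b) : a = b := by
  have h1 : (2 : ℕ) ^ a = 2 ^ b := by exact_mod_cast h
  exact Nat.pow_right_injective le_rfl h1

/-- The case `t = 1`. -/
theorem one {m k p q c c' : ℕ} (hm : 3 ≤ m) (hk : k ≤ m) (hpq : p < q) (hq : q < m + 4)
    (hpc : p ≤ c) (hcq : c < q) (hc' : c' < m + 4) (hcc : c' < p ∨ q ≤ c')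
    (h : (2 : ℤ) ^ p + 2 ^ q + 2 ^ (m + 4) = 3 * 2 ^ c + 3 * 2 ^ c' + 2 + 2 ^ k) : False := by
  have e0 : (2 : ℤ) ^ (m + 4) = 16 * 2 ^ m := by ring
  have f1 : (8 : ℤ) ≤ 2 ^ m := by
    have := le0 hm
    norm_num at this
    exact this
  have f2 := le0 hk
  have f3 := le1 hpq
  have f4 := le1 hcq
  have f5 := le0 hpc
  have f6 := le1 hq
  have f7 : (0 : ℤ) < 2 ^ p := by positivity
  have f8 : (0 : ℤ) < 2 ^ c' := by positivity
  rcases hcc with h1 | h1
  · have f9 := le1 h1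
    linarith
  · have f9 := le0 h1
    rcases (by omega : c' + 3 ≤ m + 4 ∨ c' = m + 2 ∨ c' = m + 3) with h2 | h2 | h2
    · have g1 := le3 h2
      linarith
    · have g1 : (2 : ℤ) ^ c' = 4 * 2 ^ m := by rw [h2]; ring
      rcases (by omega : c + 2 ≤ q ∨ q = c + 1) with h3 | h3
      · have g2 := le2 h3
        linarith
      · have g2 : (2 : ℤ) ^ q = 2 * 2 ^ c := by rw [h3]; ring
        linarith
    · have g1 : (2 : ℤ) ^ c' = 8 * 2 ^ m := by rw [h2]; ring
      have g2 : (0 : ℤ) < 2 ^ c := by positivity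
      have g3 : (0 : ℤ) < 2 ^ k := by positivity
      linarith

/-- The case `t = 0`. -/
theorem zero {k p q c c' : ℕ} (hk : 2 ≤ k) (hpq : p < q) (hpc : p ≤ c) (hcq : c < q)
    (hcc : c' < p ∨ q ≤ c')
    (h : (2 : ℤ) ^ p + 2 ^ q = 3 * 2 ^ c + 3 * 2 ^ c' + 1 + 2 ^ k) :
    (p = 2 ∧ q = k + 2 ∧ c = k ∧ c' = 0) ∨ (k = 3 ∧ p = 1 ∧ q = 4 ∧ c = 1 ∧ c' = 0) := by
  have f3 := le1 hpq
  have f4 := le1 hcq
  have f5 := le0 hpc
  have f7 : (0 : ℤ) < 2 ^ p := by positivity
  have f8 : (0 : ℤ) < 2 ^ c' := by positivity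
  have g2 : (0 : ℤ) < 2 ^ c := by positivity
  have g3 : (0 : ℤ) < 2 ^ k := by positivity
  rcases hcc with h1 | h1
  swap
  · exfalso
    have f9 := le0 h1
    linarith
  have f9 := le1 h1
  obtain ⟨a, ha⟩ := dv (show 1 ≤ p by omega)
  obtain ⟨b, hb⟩ := dv (show 1 ≤ c by omega)
  obtain ⟨d, hd⟩ := dv hk
  rw [pow_one] at ha hb
  have hd' : (2 : ℤ) ^ k = 4 * d := by rw [hd]; ring
  rcases (by omega : q = c + 1 ∨ q = c + 2 ∨ c + 3 ≤ q) with h2 | h2 | h2
  · exfalso
    have g1 : (2 : ℤ) ^ q = 2 * 2 ^ c := by rw [h2]; ring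
    linarith
  · left
    have g1 : (2 : ℤ) ^ q = 4 * 2 ^ c := by rw [h2]; ring
    have hc0 : c' = 0 := by
      by_contra hne
      obtain ⟨e, he⟩ := dv (show 1 ≤ c' by omega)
      rw [pow_one] at he
      omega
    subst hc0
    rw [pow_zero] at h
    rcases (by omega : p = 1 ∨ p = 2 ∨ 3 ≤ p) with h3 | h3 | h3
    · exfalso
      rw [h3, pow_one] at h
      rcases (by omega : c = 1 ∨ 2 ≤ c) with h4 | h4
      · rw [h4, pow_one] at g1 h
        omega
      · obtain ⟨e, he⟩ := dv h4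
        have he' : (2 : ℤ) ^ c = 4 * e := by rw [he]; ring
        omega
    · have h5 : (2 : ℤ) ^ c = 2 ^ k := by
        rw [h3] at h
        norm_num at h
        linarith
      have h6 := inj h5
      exact ⟨h3, by omega, h6, rfl⟩
    · exfalso
      obtain ⟨e, he⟩ := dv h3
      obtain ⟨e', he'⟩ := dv (show 3 ≤ c by omega)
      have he1 : (2 : ℤ) ^ p = 8 * e := by rw [he]; ring
      have he2 : (2 : ℤ) ^ c = 8 * e' := by rw [he']; ring
      rcases (by omega : k = 2 ∨ 3 ≤ k) with h4 | h4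
      · rw [h4] at h
        norm_num at h
        omega
      · obtain ⟨e'', he''⟩ := dv h4
        have he3 : (2 : ℤ) ^ k = 8 * e'' := by rw [he'']; ring
        omega
  · have g1 := le3 h2
    rcases (by omega : q + 1 ≤ k ∨ k = q ∨ q = k + 1 ∨ k + 2 ≤ q) with h3 | h3 | h3 | h3
    · exfalso
      have := le1 h3
      linarith
    · exfalso
      rw [h3] at h
      linarith
    · have g4 : (2 : ℤ) ^ q = 2 * 2 ^ k := by rw [h3]; ring
      rcases (by omega : c + 4 ≤ q ∨ q = c + 3) with h4 | h4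
      · exfalso
        have := le4 h4
        omega
      · right
        have g5 : (2 : ℤ) ^ q = 8 * 2 ^ c := by rw [h4]; ring
        have hc0 : c' = 0 := by
          by_contra hne
          obtain ⟨e, he⟩ := dv (show 1 ≤ c' by omega)
          rw [pow_one] at he
          omega
        subst hc0
        rw [pow_zero] at h
        have hp1 : p = 1 := by
          apply inj
          rw [pow_one]
          omega
        have hc1 : c = 1 := by
          apply inj
          rw [pow_one]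
          omega
        refine ⟨by omega, hp1, by omega, hc1, rfl⟩
    · exfalso
      have g4 := le2 h3
      omega

end NUMx

open NUMx in
/-- NUM. -/
theorem p_NUM : T_NUM := by
  intro n k p q hn hk hkn hpq hqn
  obtain ⟨m, rfl⟩ : ∃ m, n = m + 4 := ⟨n - 4, by omega⟩
  have hm : 3 ≤ m := by omega
  have hkm : k ≤ m := by omega
  have e0 : (2 : ℤ) ^ (m + 4) = 16 * 2 ^ m := by ring
  have f1 : (8 : ℤ) ≤ 2 ^ m := by
    have := le0 hm
    norm_num at this
    exact this
  have f2 := le0 hkm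
  have f3 := le1 hpq
  have f6 := le1 hqn
  have f7 : (0 : ℤ) < 2 ^ p := by positivity
  have f8 : (0 : ℤ) < 2 ^ k := by positivity
  obtain ⟨d, hd⟩ := dv hk
  have hd' : (2 : ℤ) ^ k = 4 * d := by rw [hd]; ring
  obtain ⟨b, hb⟩ := dv (show 1 ≤ q by omega)
  rw [pow_one] at hb
  refine ⟨fun c c' hpc hcq hc' hcc h => ?_, fun h => ?_, fun h => ?_⟩
  · have f4 := le1 hcq
    have f5 := le0 hpc
    have f9 : (0 : ℤ) < 2 ^ c' := by positivity
    have f10 : (0 : ℤ) < 2 ^ c := by positivity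
    have f11 := le1 hc'
    rcases dvd_cases h (by linarith) (by
      rcases (by omega : c + 3 ≤ m + 4 ∨ (c = m + 2 ∧ q = m + 3)) with h1 | ⟨h1, h2⟩
      · have := le3 h1
        linarith
      · have g1 : (2 : ℤ) ^ c = 4 * 2 ^ m := by rw [h1]; ring
        have g2 : (2 : ℤ) ^ q = 8 * 2 ^ m := by rw [h2]; ring
        linarith) with h1 | h1
    · exact zero hk hpq hpc hcq hcc (by linarith)
    · exact (one hm hkm hpq hqn hpc hcq hc' hcc (by linarith)).elim
  · rcases dvd_cases h (by linarith) (by linarith) with h1 | h1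
    · omega
    · linarith
  · rcases dvd_cases h (by linarith) (by linarith) with h1 | h1
    · linarith
    · rcases (by omega : q = m + 3 ∨ q + 2 ≤ m + 4) with h2 | h2
      · have g1 : (2 : ℤ) ^ q = 8 * 2 ^ m := by rw [h2]; ring
        have h3 : (2 : ℤ) ^ p = 2 + 2 ^ k := by linarith
        rcases (by omega : p = 0 ∨ p = 1 ∨ 2 ≤ p) with h4 | h4 | h4
        · rw [h4, pow_zero] at h3
          linarith
        · rw [h4, pow_one] at h3
          linarith
        · obtain ⟨e, he⟩ := dv h4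
          have he1 : (2 : ℤ) ^ p = 4 * e := by rw [he]; ring
          omega
      · have := le2 h2
        linarith

end Pool.Agent.GSW
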