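import Pool.Agent.GSW.Targets

set_option autoImplicit false

/-!
# GSW, QUA: the function `f` is quadratic
-/

namespace Pool.Agent.GSW

open Finset

namespace QUAx

variable {F : Type} [Field F] [CharP F 2]

theorem two0 : (2 : F) = 0 := CharTwo.two_eq_zero

theorem bit_add {a b : F} (ha : Bit a) (hb : Bit b) : Bit (a + b) := by
  rcases ha with rfl | rfl <;> rcases hb with rfl | rfl
  · left; simp
  · right; simp
  · right; simp
  · left
    exact CharTwo.add_self_eq_zero 1

theorem bit_mul {a b : F} (ha : Bit a) (hb : Bit b) : Bit (a * b) := by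
  rcases ha with rfl | rfl <;> rcases hb with rfl | rfl
  · left; simp
  · left; simp
  · left; simp
  · right; simp

theorem bval (f : F → F) (x y : F) :
    der x (der y f) 0 = f (x + y) + f x + (f y + f 0) := by
  unfold der
  simp only [zero_add]

theorem cube (x y : F) : (x + y) ^ 3 = x ^ 3 + y ^ 3 + (x ^ 2 * y + x * y ^ 2) := by
  linear_combination (x ^ 2 * y + x * y ^ 2) * (two0 (F := F))

theorem nine (x y : F) : (x + y) ^ 9 = x ^ 9 + y ^ 9 + (x ^ 8 * y + x * y ^ 8) := by
  linear_combination (4 * x ^ 8 * y + 18 * x ^ 7 * y ^ 2 + 42 * x ^ 6 * y ^ 3 +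
    63 * x ^ 5 * y ^ 4 + 63 * x ^ 4 * y ^ 5 + 42 * x ^ 3 * y ^ 6 + 18 * x ^ 2 * y ^ 7 +
    4 * x * y ^ 8) * (two0 (F := F))

end QUAx

open QUAx in
/-- QUA -/
theorem p_QUA (h1 : T_FRM) (h2 : T_DEG) (h3 : T_TRC) : T_QUA := by
  intro F _ _ _ n hn hF u f hu hf hL
  obtain ⟨tadd, -, tbit, -, -, -, trep, -⟩ := h3 F n (by omega) hF
  have hD := h2 F n hn hF u f hu hf hL
  have t2 : (2 : F) = 0 := two0
  have hb : Alt (fun x y : F => der x (der y f) 0) := by
    refine ⟨fun x y => ?_, fun x x' y => ?_, fun x y y' => ?_, fun x => ?_⟩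
    · rw [bval]
      exact bit_add (bit_add (hf _) (hf _)) (bit_add (hf _) (hf _))
    · have h := hD x x' y 0
      simp only [bval]
      unfold der at h
      simp only [zero_add] at h
      linear_combination h - (f (x + y) + f (x' + y) + f x + f x' + f y + f 0) * t2
    · have h := hD x y y' 0
      simp only [bval]
      unfold der at h
      simp only [zero_add] at h
      have e2 : x + (y + y') = x + y + y' := (add_assoc x y y').symm
      rw [e2]
      linear_combination h - (f (x + y) + f (x + y') + f y + f y' + f x + f 0) * t2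
    · simp only [bval]
      rw [CharTwo.add_self_eq_zero]
      linear_combination (f 0 + f x) * t2
  obtain ⟨al, e, he, hal, hfm⟩ := h1 F n hn hF u (fun x y => der x (der y f) 0) hu hb
    (fun a d h => hL a d 0 h)
  have hfm' : ∀ x y : F, f (x + y) + f x + (f y + f 0) =
      Tr n (al * (x ^ 2 * y + x * y ^ 2)) + e * Tr n ((u ^ 3)⁻¹ * (x ^ 8 * y + x * y ^ 8)) := by
    intro x y
    rw [← bval]
    exact hfm x y
  obtain ⟨la, hla⟩ := trep (fun x => f x + Tr n (al * x ^ 3) + e * Tr n ((u ^ 3)⁻¹ * x ^ 9) + f 0)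
    (by
      intro x y
      rw [cube, nine, mul_add al, mul_add al, tadd, tadd, mul_add (u ^ 3)⁻¹, mul_add (u ^ 3)⁻¹,
        tadd, tadd]
      linear_combination hfm' x y +
        (Tr n (al * (x ^ 2 * y + x * y ^ 2)) +
          e * Tr n ((u ^ 3)⁻¹ * (x ^ 8 * y + x * y ^ 8)) - f x - f y - f 0) * t2)
    (by
      intro x
      exact bit_add (bit_add (bit_add (hf _) (tbit _)) (bit_mul he (tbit _))) (hf _))
  refine ⟨al, e, la, f 0, he, hf 0, hal, fun x => ?_⟩
  have h := hla x
  linear_combination h - (Tr n (al * x ^ 3) + e * Tr n ((u ^ 3)⁻¹ * x ^ 9) + f 0) * t2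

end Pool.Agent.GSW
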