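import Pool.Agent.GSW.Targets

set_option autoImplicit false

/-!
# REP: coefficients of an alternating bilinear form (MP_d7c7d1_co)
-/

namespace Pool.Agent.GSW

open Finset

namespace REPx

variable {F : Type} [Field F]

theorem sum_symm_char_two [CharP F 2] (a : ℕ → ℕ → F) (h : ∀ p q, a p q = a q p) (n : ℕ) :
    ∑ p ∈ range n, ∑ q ∈ range n, a p q = ∑ p ∈ range n, a p p := by
  induction n with
  | zero => simp
  | succ n ih =>
    rw [sum_range_succ, sum_range_succ (fun p => a p p), sum_range_succ (fun q => a n q)]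
    have h1 : ∑ p ∈ range n, ∑ q ∈ range (n + 1), a p q =
        ∑ p ∈ range n, ∑ q ∈ range n, a p q + ∑ p ∈ range n, a n p := by
      rw [← sum_add_distrib]
      refine sum_congr rfl fun p _ => ?_
      rw [sum_range_succ, h p n]
    rw [h1, ih]
    have h2 : ∑ p ∈ range n, a n p + ∑ p ∈ range n, a n p = 0 := CharTwo.add_self_eq_zero _
    linear_combination h2

theorem sum_shift (n : ℕ) (hn : 1 ≤ n) (g : ℕ → F) :
    ∑ p ∈ range n, g ((p + 1) % n) = ∑ p ∈ range n, g p := by
  obtain ⟨m, rfl⟩ : ∃ m, n = m + 1 := ⟨n - 1, by omega⟩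
  rw [sum_range_succ, Nat.mod_self, sum_range_succ']
  congr 1
  refine sum_congr rfl fun p hp => ?_
  rw [Nat.mod_eq_of_lt (by have := mem_range.1 hp; omega)]

theorem pow_card' [Fintype F] (n : ℕ) (hF : Fintype.card F = 2 ^ n) (x : F) : x ^ 2 ^ n = x := by
  rw [← hF]
  exact FiniteField.pow_card x

theorem pow_shift [Fintype F] (n : ℕ) (hF : Fintype.card F = 2 ^ n) (x : F) (p : ℕ)
    (hp : p < n) : x ^ 2 ^ ((p + 1) % n) = (x ^ 2) ^ 2 ^ p := by
  have h0 : (x ^ 2) ^ 2 ^ p = x ^ 2 ^ (p + 1) := by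
    rw [← pow_mul, pow_succ, mul_comm]
  rw [h0]
  rcases Nat.lt_or_ge (p + 1) n with h | h
  · rw [Nat.mod_eq_of_lt h]
  · have h1 : p + 1 = n := by omega
    rw [h1, Nat.mod_self, pow_card' n hF, pow_zero, pow_one]

theorem sq_surj [Fintype F] (n : ℕ) (hn : 1 ≤ n) (hF : Fintype.card F = 2 ^ n) (x : F) :
    ∃ y : F, y ^ 2 = x := by
  refine ⟨x ^ 2 ^ (n - 1), ?_⟩
  rw [← pow_mul, ← pow_succ, Nat.sub_add_cancel hn]
  exact pow_card' n hF x

theorem ev_swap (n : ℕ) (c : ℕ → ℕ → F) (x y : F) :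
    ev n (fun p q => c q p) x y = ev n c y x := by
  unfold ev
  rw [sum_comm]
  refine sum_congr rfl fun p _ => sum_congr rfl fun q _ => ?_
  ring

theorem ev_sub (n : ℕ) (c d : ℕ → ℕ → F) (x y : F) :
    ev n (fun p q => c p q - d p q) x y = ev n c x y - ev n d x y := by
  unfold ev
  rw [← sum_sub_distrib]
  refine sum_congr rfl fun p _ => ?_
  rw [← sum_sub_distrib]
  refine sum_congr rfl fun q _ => ?_
  ring

theorem ev_sq [CharP F 2] (n : ℕ) (c : ℕ → ℕ → F) (x y : F) :
    (ev n c x y) ^ 2 = ev n (fun p q => c p q ^ 2) (x ^ 2) (y ^ 2) := by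
  unfold ev
  haveI : ExpChar F 2 := ExpChar.prime Nat.prime_two
  rw [sum_pow_char 2]
  refine sum_congr rfl fun p _ => ?_
  rw [sum_pow_char 2]
  refine sum_congr rfl fun q _ => ?_
  ring

theorem ev_shift [Fintype F] (n : ℕ) (hn : 1 ≤ n) (hF : Fintype.card F = 2 ^ n)
    (c : ℕ → ℕ → F) (x y : F) :
    ev n c x y = ev n (fun p q => c ((p + 1) % n) ((q + 1) % n)) (x ^ 2) (y ^ 2) := by
  unfold ev
  rw [← sum_shift n hn]
  refine sum_congr rfl fun p hp => ?_
  rw [← sum_shift n hn]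
  refine sum_congr rfl fun q hq => ?_
  rw [pow_shift n hF x p (mem_range.1 hp), pow_shift n hF y q (mem_range.1 hq)]

end REPx

open REPx in
theorem p_REP (hLIN : T_LIN) : T_REP := by
  intro F _ _ _ n hn hF b hb
  have hn1 : 1 ≤ n := by omega
  obtain ⟨L1, L2, L3⟩ := hLIN F n hn1 hF
  have ex1 : ∀ y : F, ∃ l : ℕ → F, ∀ x, b x y = ∑ i ∈ range n, l i * x ^ 2 ^ i :=
    fun y => L3 (fun x => b x y) fun x x' => hb.add1 x x' y
  choose L hL using ex1
  have hadd : ∀ i, i < n → ∀ y y', L (y + y') i = L y i + L y' i := by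
    intro i hi y y'
    have h1 := L1 (fun i => L (y + y') i - (L y i + L y' i)) ?_ i hi
    · exact sub_eq_zero.1 h1
    · intro x
      have h2 := hb.add2 x y y'
      rw [hL, hL, hL, ← sum_add_distrib] at h2
      rw [← sub_eq_zero, ← sum_sub_distrib] at h2
      rw [← h2]
      refine sum_congr rfl fun i _ => ?_
      ring
  have ex2 : ∀ i : ℕ, ∃ l : ℕ → F, i < n → ∀ y, L y i = ∑ j ∈ range n, l j * y ^ 2 ^ j := by
    intro i
    by_cases hi : i < n
    · obtain ⟨l, hl⟩ := L3 (fun y => L y i) fun y y' => hadd i hi y y'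
      exact ⟨l, fun _ => hl⟩
    · exact ⟨0, fun h => absurd h hi⟩
  choose C hC using ex2
  have hbC : ∀ x y, b x y = ev n (fun p q => if p < n ∧ q < n then C p q else 0) x y := by
    intro x y
    rw [hL, ev]
    refine sum_congr rfl fun p hp => ?_
    rw [hC p (mem_range.1 hp), sum_mul]
    refine sum_congr rfl fun q hq => ?_
    rw [if_pos ⟨mem_range.1 hp, mem_range.1 hq⟩]
    ring
  generalize hc : (fun p q => if p < n ∧ q < n then C p q else 0) = c at hbC
  have hout : ∀ p q, ¬ (p < n ∧ q < n) → c p q = 0 := by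
    intro p q h
    rw [← hc]
    exact if_neg h
  have hself : ∀ z : F, z + z = 0 := fun z => CharTwo.add_self_eq_zero z
  have hbs : ∀ x y, b x y = b y x := by
    intro x y
    have h := hb.alt (x + y)
    rw [hb.add1, hb.add2, hb.add2, hb.alt x, hb.alt y] at h
    linear_combination h - hself (b y x)
  have hsymm : ∀ p q, c p q = c q p := by
    intro p q
    by_cases h : p < n ∧ q < n
    · have h1 := L2 (fun p q => c p q - c q p) ?_ p h.1 q h.2
      · exact sub_eq_zero.1 h1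
      · intro x y
        rw [ev_sub n c (fun p q => c q p) x y, ev_swap n c x y, ← hbC, ← hbC, hbs, sub_self]
    · rw [hout p q h, hout q p fun h' => h ⟨h'.2, h'.1⟩]
  refine ⟨c, ⟨hsymm, ?_, ?_⟩, hbC⟩
  · intro p
    by_cases hp : p < n
    · refine L1 (fun p => c p p) ?_ p hp
      intro x
      obtain ⟨y, rfl⟩ := sq_surj n hn1 hF x
      have h := hb.alt y
      rw [hbC, ev, sum_symm_char_two (fun p q => c p q * y ^ 2 ^ p * y ^ 2 ^ q) ?_ n] at h
      · rw [← h]
        refine sum_congr rfl fun p _ => ?_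
        ring
      · intro p q
        show c p q * y ^ 2 ^ p * y ^ 2 ^ q = c q p * y ^ 2 ^ q * y ^ 2 ^ p
        rw [hsymm p q]
        ring
    · exact hout p p fun h => hp h.1
  · intro p hp q hq
    have h1 := L2 (fun p q => c ((p + 1) % n) ((q + 1) % n) - c p q ^ 2) ?_ p hp q hq
    · exact sub_eq_zero.1 h1
    · intro X Y
      obtain ⟨x, rfl⟩ := sq_surj n hn1 hF X
      obtain ⟨y, rfl⟩ := sq_surj n hn1 hF Y
      rw [ev_sub n (fun p q => c ((p + 1) % n) ((q + 1) % n)) (fun p q => c p q ^ 2),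
        ← ev_shift n hn1 hF c x y, ← ev_sq, ← hbC]
      rcases hb.bit x y with h | h <;> rw [h] <;> ring

end Pool.Agent.GSW
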