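import Pool.Agent.GSW.Targets

set_option autoImplicit false

/-!
# GSW, SMF: power sums over the units, integer exponents
-/

namespace Pool.Agent.GSW

open Finset

namespace SMFx

theorem zpow_red {F : Type} [Field F] [Fintype F] {n : ℕ} (hc : Fintype.card F = 2 ^ n)
    (m : ℤ) {k : ℕ} (hk : m % ((2 : ℤ) ^ n - 1) = k) (x : F)
    (hx : x ≠ 0) : x ^ m = x ^ k := by
  have h2 : 1 ≤ 2 ^ n := Nat.one_le_two_pow
  have hN : ((2 : ℤ) ^ n - 1) = ((2 ^ n - 1 : ℕ) : ℤ) := by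
    push_cast [h2]
    ring
  have h1 : x ^ ((2 : ℤ) ^ n - 1) = 1 := by
    rw [hN, zpow_natCast, ← hc]
    exact FiniteField.pow_card_sub_one_eq_one x hx
  have hm := Int.emod_add_mul_ediv m ((2 : ℤ) ^ n - 1)
  rw [hk] at hm
  rw [← hm, zpow_add₀ hx, zpow_mul, h1, one_zpow, mul_one, zpow_natCast]

end SMFx

open SMFx in
/-- **SMF** -/
theorem p_SMF : T_SMF := by
  intro F _ _ _ _ n hn hc m
  have h2 : 1 ≤ 2 ^ n := Nat.one_le_two_pow
  have h3 : 2 ≤ 2 ^ n := by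
    calc 2 = 2 ^ 1 := rfl
      _ ≤ 2 ^ n := Nat.pow_le_pow_right (by norm_num) hn
  have hN : ((2 : ℤ) ^ n - 1) = ((2 ^ n - 1 : ℕ) : ℤ) := by
    push_cast [h2]
    ring
  have hN0 : ((2 : ℤ) ^ n - 1) ≠ 0 := by
    rw [hN]
    have : 2 ^ n - 1 ≠ 0 := by omega
    exact_mod_cast this
  obtain ⟨k, hk⟩ := Int.eq_ofNat_of_zero_le (Int.emod_nonneg m hN0)
  have e : ∑ x : Fˣ, ((x : F) ^ m) = ∑ x : Fˣ, ((x : F) ^ k) :=
    Finset.sum_congr rfl fun x _ => zpow_red hc m hk _ x.ne_zero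
  have h4 := FiniteField.sum_pow_units F k
  rw [hc] at h4
  have h5 : 2 ^ n - 1 ∣ k ↔ ((2 : ℤ) ^ n - 1) ∣ m := by
    have hm := Int.emod_add_mul_ediv m ((2 : ℤ) ^ n - 1)
    rw [hk] at hm
    rw [← hm, dvd_add_left (dvd_mul_right _ _), hN]
    exact Int.natCast_dvd_natCast.symm
  rw [e, h4]
  by_cases h : ((2 : ℤ) ^ n - 1) ∣ m
  · rw [if_pos h, if_pos (h5.2 h), CharTwo.neg_eq]
  · rw [if_neg h, if_neg (fun h' => h (h5.1 h'))]

end Pool.Agent.GSW
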