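import Pool.Agent.GSW.Targets

set_option autoImplicit false

/-! GSW-SUF: the converse for functions. -/

namespace Pool.Agent.GSW

open Finset

namespace SUFx

theorem cube {F : Type} [Field F] [CharP F 2] (c x a d : F) :
    c * (x + a + d) ^ 3 + c * (x + a) ^ 3 + c * (x + d) ^ 3 + c * x ^ 3 =
      c * (a ^ 2 * d + a * d ^ 2) := by
  have h2 : (2 : F) = 0 := CharTwo.two_eq_zero
  linear_combination c * (2 * x ^ 3 + 3 * x ^ 2 * (a + d) + 3 * x * (a ^ 2 + d ^ 2 + a * d) +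
    a ^ 3 + d ^ 3 + a ^ 2 * d + a * d ^ 2) * h2

theorem eight {F : Type} [Field F] [CharP F 2] (x y : F) : (x + y) ^ 8 = x ^ 8 + y ^ 8 := by
  have h := add_pow_char_pow (R := F) (p := 2) (n := 3) (x := x) (y := y)
  norm_num at h
  exact h

theorem nine {F : Type} [Field F] [CharP F 2] (c x a d : F) :
    c * (x + a + d) ^ 9 + c * (x + a) ^ 9 + c * (x + d) ^ 9 + c * x ^ 9 =
      c * (a ^ 8 * d + a * d ^ 8) := by
  have h2 : (2 : F) = 0 := CharTwo.two_eq_zero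
  have e : ∀ y : F, y ^ 9 = y ^ 8 * y := fun y => by ring
  rw [e (x + a + d), e (x + a), e (x + d), e x, eight (x + a) d, eight x a, eight x d]
  linear_combination c * (2 * x ^ 8 * x + x ^ 8 * a + x ^ 8 * d + a ^ 8 * x + d ^ 8 * x +
    a ^ 8 * a + d ^ 8 * d) * h2

theorem one {F : Type} [Field F] [CharP F 2] (c x a d : F) :
    c * (x + a + d) + c * (x + a) + c * (x + d) + c * x = 0 := by
  have h2 : (2 : F) = 0 := CharTwo.two_eq_zero
  linear_combination c * (2 * x + a + d) * h2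

end SUFx

theorem p_SUF (h1 : T_LNV) (h2 : T_TRC) : T_SUF := by
  intro F _ _ _ n hn hF u al e la c0 hu _ _ hal a d x hL
  obtain ⟨hadd, -⟩ := h2 F n (by omega) hF
  have h0 : Tr n (0 : F) = 0 := by
    have h := hadd 0 0
    rw [add_zero] at h
    exact left_eq_add.1 h
  have ht : (2 : F) = 0 := CharTwo.two_eq_zero
  have k1 : Tr n (al * (x + a + d) ^ 3) + Tr n (al * (x + a) ^ 3) + Tr n (al * (x + d) ^ 3) +
      Tr n (al * x ^ 3) = Tr n (al * (a ^ 2 * d + a * d ^ 2)) := by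
    rw [← hadd, ← hadd, ← hadd, SUFx.cube]
  have k2 : Tr n ((u ^ 3)⁻¹ * (x + a + d) ^ 9) + Tr n ((u ^ 3)⁻¹ * (x + a) ^ 9) +
      Tr n ((u ^ 3)⁻¹ * (x + d) ^ 9) + Tr n ((u ^ 3)⁻¹ * x ^ 9) =
      Tr n ((u ^ 3)⁻¹ * (a ^ 8 * d + a * d ^ 8)) := by
    rw [← hadd, ← hadd, ← hadd, SUFx.nine]
  have k3 : Tr n (la * (x + a + d)) + Tr n (la * (x + a)) + Tr n (la * (x + d)) +
      Tr n (la * x) = 0 := by
    rw [← hadd, ← hadd, ← hadd, SUFx.one, h0]
  have k4 : Fm n u al e a d = 0 := h1 F n (by omega) hF u al e a d hu hal hL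
  unfold Fm at k4
  simp only [der]
  linear_combination k1 + e * k2 + k3 + k4 + 2 * c0 * ht

end Pool.Agent.GSW
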