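import Pool.Agent.GSW.Targets

set_option autoImplicit false
set_option linter.unusedSectionVars false
set_option linter.unusedVariables false

/-!
# Standard facts on the trace of a field with `2 ^ n` elements (block TRC)
-/

namespace Pool.Agent.GSW

open Finset

namespace TRCx

variable {F : Type} [Field F] [Fintype F] [CharP F 2]

lemma two_zero : (2 : F) = 0 := by
  have h := CharP.cast_eq_zero F 2
  simpa using h

lemma self_add (x : F) : x + x = 0 := by
  have h : x + x = 2 * x := by ring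
  rw [h, two_zero, zero_mul]

lemma pow_card' {n : ℕ} (hc : Fintype.card F = 2 ^ n) (x : F) : x ^ 2 ^ n = x := by
  rw [← hc]
  exact FiniteField.pow_card x

lemma add_pow_two_pow (x y : F) (i : ℕ) : (x + y) ^ 2 ^ i = x ^ 2 ^ i + y ^ 2 ^ i :=
  add_pow_char_pow x y 2 i

lemma tr_add (n : ℕ) (x y : F) : Tr n (x + y) = Tr n x + Tr n y := by
  unfold Tr
  rw [← sum_add_distrib]
  exact sum_congr rfl fun i _ => add_pow_two_pow x y i

lemma tr_zero (n : ℕ) : Tr n (0 : F) = 0 := by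
  have h := tr_add n (0 : F) 0
  rw [add_zero] at h
  have h2 := self_add (Tr n (0 : F))
  rw [← h] at h2
  exact h2

lemma sum_shift {n : ℕ} (s : ℕ → F) :
    ∑ i ∈ range n, s (i + 1) = ∑ i ∈ range n, s i + s n + s 0 := by
  have h1 := sum_range_succ s n
  have h2 := sum_range_succ' s n
  have h3 : ∑ i ∈ range n, s i + s n = ∑ i ∈ range n, s (i + 1) + s 0 := by
    rw [← h1, ← h2]
  rw [h3, add_assoc, self_add, add_zero]

lemma tr_sq {n : ℕ} (hc : Fintype.card F = 2 ^ n) (x : F) : Tr n (x ^ 2) = Tr n x := by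
  unfold Tr
  have h : ∀ i ∈ range n, (x ^ 2) ^ 2 ^ i = x ^ 2 ^ (i + 1) := by
    intro i _
    rw [← pow_mul]
    congr 1
    ring
  rw [sum_congr rfl h, sum_shift (fun i => x ^ 2 ^ i)]
  simp only [pow_zero, pow_one]
  rw [pow_card' hc, add_assoc, self_add, add_zero]

lemma sum_sq {n : ℕ} (s : ℕ → F) : (∑ i ∈ range n, s i) ^ 2 = ∑ i ∈ range n, s i ^ 2 := by
  induction n with
  | zero => simp
  | succ n ih =>
    rw [sum_range_succ, sum_range_succ, ← ih]
    have h := add_pow_two_pow (∑ i ∈ range n, s i) (s n) 1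
    simpa using h

lemma tr_pow {n : ℕ} (x : F) : Tr n x ^ 2 = Tr n (x ^ 2) := by
  unfold Tr
  rw [sum_sq]
  refine sum_congr rfl fun i _ => ?_
  rw [← pow_mul, ← pow_mul]
  congr 1
  ring

lemma tr_bit {n : ℕ} (hc : Fintype.card F = 2 ^ n) (x : F) : Bit (Tr n x) := by
  have h : Tr n x ^ 2 = Tr n x := by rw [tr_pow, tr_sq hc]
  have h2 : Tr n x * (Tr n x - 1) = 0 := by
    have h3 : Tr n x * (Tr n x - 1) = Tr n x ^ 2 - Tr n x := by ring
    rw [h3, h, sub_self]
  rcases mul_eq_zero.1 h2 with h3 | h3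
  · exact Or.inl h3
  · exact Or.inr (sub_eq_zero.1 h3)

lemma tr_one (hL : T_LIN) {n : ℕ} (hn : 1 ≤ n) (hc : Fintype.card F = 2 ^ n) :
    ∃ x : F, Tr n x = 1 := by
  by_contra hno
  have hz : ∀ x : F, ∑ i ∈ range n, (fun _ : ℕ => (1 : F)) i * x ^ 2 ^ i = 0 := by
    intro x
    rcases tr_bit hc x with h | h
    · simpa [Tr] using h
    · exact absurd ⟨x, h⟩ hno
  have h := (hL F n hn hc).1 _ hz 0 (by omega)
  exact one_ne_zero h

/-- the partial traces -/
def S (x : F) (j : ℕ) : F := ∑ i ∈ range j, x ^ 2 ^ i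

lemma S_sq (x : F) (j : ℕ) : S x j ^ 2 = S x (j + 1) + x := by
  unfold S
  rw [sum_sq, sum_range_succ']
  simp only [pow_zero, pow_one]
  rw [add_assoc, self_add, add_zero]
  refine sum_congr rfl fun i _ => ?_
  rw [← pow_mul]
  congr 1

lemma hilbert (hL : T_LIN) {n : ℕ} (hn : 1 ≤ n) (hc : Fintype.card F = 2 ^ n) (x : F)
    (hx : Tr n x = 0) : ∃ z : F, z ^ 2 + z = x := by
  obtain ⟨θ, hθ⟩ := tr_one hL hn hc
  refine ⟨∑ j ∈ range n, S x j * θ ^ 2 ^ j, ?_⟩
  rw [sum_sq]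
  have h : ∀ j ∈ range n, (S x j * θ ^ 2 ^ j) ^ 2 =
      S x (j + 1) * θ ^ 2 ^ (j + 1) + x * θ ^ 2 ^ (j + 1) := by
    intro j _
    rw [mul_pow, S_sq, ← pow_mul, add_mul]
    have e : 2 ^ j * 2 = 2 ^ (j + 1) := by ring
    rw [e]
  rw [sum_congr rfl h, sum_add_distrib, ← mul_sum,
    sum_shift (fun j => S x j * θ ^ 2 ^ j), sum_shift (fun j => θ ^ 2 ^ j)]
  have h1 : S x n = 0 := hx
  have h2 : S x 0 = 0 := by simp [S]
  have h3 : ∑ j ∈ range n, θ ^ 2 ^ j = 1 := hθ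
  simp only [h1, h2, h3, zero_mul, add_zero, pow_zero, pow_one]
  rw [pow_card' hc, add_assoc (1 : F), self_add, add_zero, mul_one, add_right_comm, self_add,
    zero_add]

lemma tr_ker (hL : T_LIN) {n : ℕ} (hn : 1 ≤ n) (hc : Fintype.card F = 2 ^ n) (x : F) :
    Tr n x = 0 ↔ ∃ z : F, z ^ 2 + z = x := by
  constructor
  · exact hilbert hL hn hc x
  · rintro ⟨z, rfl⟩
    rw [tr_add, tr_sq hc, self_add]

lemma nondeg (hL : T_LIN) {n : ℕ} (hn : 1 ≤ n) (hc : Fintype.card F = 2 ^ n) (c : F)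
    (h : ∀ x : F, Tr n (c * x) = 0) : c = 0 := by
  by_contra hne
  obtain ⟨θ, hθ⟩ := tr_one hL hn hc
  have h1 := h (c⁻¹ * θ)
  rw [← mul_assoc, mul_inv_cancel₀ hne, one_mul, hθ] at h1
  exact one_ne_zero h1

lemma rep (hL : T_LIN) {n : ℕ} (hn : 1 ≤ n) (hc : Fintype.card F = 2 ^ n) (g : F → F)
    (hg : ∀ x y, g (x + y) = g x + g y) (hb : ∀ x, Bit (g x)) :
    ∃ c, ∀ x, g x = Tr n (c * x) := by
  obtain ⟨l, hl⟩ := (hL F n hn hc).2.2 g hg
  -- the coefficients of the square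
  have hz : ∀ x : F, ∑ i ∈ range n,
      (fun i : ℕ => l i + (if i = 0 then l (n - 1) ^ 2 else l (i - 1) ^ 2)) i * x ^ 2 ^ i = 0 := by
    intro x
    have hsq : g x ^ 2 = g x := by
      rcases hb x with h | h <;> rw [h] <;> simp
    have h1 : g x ^ 2 = ∑ i ∈ range n,
        (if i = 0 then l (n - 1) ^ 2 else l (i - 1) ^ 2) * x ^ 2 ^ i := by
      rw [hl x, sum_sq]
      obtain ⟨m, rfl⟩ : ∃ m, n = m + 1 := ⟨n - 1, by omega⟩
      rw [sum_range_succ, sum_range_succ' (fun i =>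
        (if i = 0 then l (m + 1 - 1) ^ 2 else l (i - 1) ^ 2) * x ^ 2 ^ i)]
      congr 1
      · refine sum_congr rfl fun i _ => ?_
        rw [if_neg (Nat.succ_ne_zero i), mul_pow, ← pow_mul, Nat.add_sub_cancel]
        congr 1
      · rw [if_pos rfl, mul_pow, ← pow_mul, Nat.add_sub_cancel]
        have e : 2 ^ m * 2 = 2 ^ (m + 1) := by ring
        rw [e, pow_card' hc]
        simp
    simp only [add_mul]
    rw [sum_add_distrib, ← h1, hsq, hl x, self_add]
  have hl0 := (hL F n hn hc).1 _ hz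
  have hl1 : ∀ i, i < n → l i = l 0 ^ 2 ^ i := by
    intro i
    induction i with
    | zero => intro _; simp
    | succ i ih =>
      intro hi
      have h2 := hl0 (i + 1) hi
      simp only [Nat.succ_ne_zero, if_false, Nat.add_sub_cancel] at h2
      have h3 : l (i + 1) = l i ^ 2 := by
        have h4 : l (i + 1) + l i ^ 2 + l i ^ 2 = l i ^ 2 := by rw [h2, zero_add]
        rwa [add_assoc, self_add, add_zero] at h4
      rw [h3, ih (by omega), ← pow_mul]
      congr 1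
  refine ⟨l 0, fun x => ?_⟩
  rw [hl x]
  unfold Tr
  refine sum_congr rfl fun i hi => ?_
  rw [mul_pow, hl1 i (mem_range.1 hi)]

lemma exists_cube (hL : T_LIN) {n : ℕ} (hn : 3 ≤ n) (hc : Fintype.card F = 2 ^ n) (u : F) :
    ∃ y : F, y ≠ 0 ∧ Tr n (u * y ^ 3) = 0 := by
  classical
  by_contra hno
  have hall : ∀ y : F, y ≠ 0 → Tr n (u * y ^ 3) = 1 := by
    intro y hy
    rcases tr_bit hc (u * y ^ 3) with h | h
    · exact absurd ⟨y, hy, h⟩ hno
    · exact h
  have h8 : 8 ≤ Fintype.card F := by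
    rw [hc]
    calc 8 = 2 ^ 3 := by norm_num
      _ ≤ 2 ^ n := Nat.pow_le_pow_right (by norm_num) hn
  have key : ∀ y : F, y ≠ 0 → y + 1 ≠ 0 → Tr n (u * (y + y ^ 2)) = 1 := by
    intro y h0 h1
    have e : u * (y + y ^ 2) = u * (y + 1) ^ 3 + u * y ^ 3 + u * 1 ^ 3 := by
      have h2 := two_zero (F := F)
      linear_combination (-(u * (y ^ 3 + y ^ 2 + y + 1))) * h2
    rw [e, tr_add, tr_add, hall _ h1, hall _ h0, hall _ one_ne_zero, self_add, zero_add]
  obtain ⟨y, -, hy⟩ : ∃ y ∈ (univ : Finset F), y ∉ ({0, 1} : Finset F) := by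
    apply exists_mem_notMem_of_card_lt_card
    calc ({0, 1} : Finset F).card ≤ 2 := card_le_two
      _ < univ.card := by rw [card_univ]; omega
  obtain ⟨w, -, hw⟩ : ∃ w ∈ (univ : Finset F), w ∉ ({0, 1, y, y + 1} : Finset F) := by
    apply exists_mem_notMem_of_card_lt_card
    calc ({0, 1, y, y + 1} : Finset F).card ≤ 4 := card_le_four
      _ < univ.card := by rw [card_univ]; omega
  simp only [mem_insert, mem_singleton, not_or] at hy hw
  obtain ⟨hy0, hy1⟩ := hy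
  obtain ⟨hw0, hw1, hwy, hwy1⟩ := hw
  have ne1 : ∀ a : F, a ≠ 1 → a + 1 ≠ 0 := by
    intro a ha h
    apply ha
    have h2 : a + 1 + 1 = 1 := by rw [h, zero_add]
    rwa [add_assoc, self_add, add_zero] at h2
  have k1 := key y hy0 (ne1 y hy1)
  have k2 := key w hw0 (ne1 w hw1)
  have hs0 : y + w ≠ 0 := by
    intro h
    apply hwy
    have h2 : y + (y + w) = y := by rw [h, add_zero]
    rwa [← add_assoc, self_add, zero_add] at h2
  have hs1 : y + w + 1 ≠ 0 := by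
    intro h
    apply hwy1
    have h2 : (y + 1) + (y + w + 1) = y + 1 := by rw [h, add_zero]
    have h3 : (y + 1) + (y + w + 1) = (y + y) + (1 + 1) + w := by ring
    rw [h3, self_add, self_add, zero_add, zero_add] at h2
    exact h2
  have k3 := key (y + w) hs0 hs1
  have e : u * (y + w + (y + w) ^ 2) = u * (y + y ^ 2) + u * (w + w ^ 2) := by
    have h2 := two_zero (F := F)
    linear_combination (u * y * w) * h2
  rw [e, tr_add, k1, k2, self_add] at k3
  exact zero_ne_one k3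

lemma exists_pair (hL : T_LIN) {n : ℕ} (hn : 3 ≤ n) (hc : Fintype.card F = 2 ^ n) (u : F) :
    ∃ a d : F, Ln u a d := by
  obtain ⟨y, hy, ht⟩ := exists_cube hL hn hc u
  obtain ⟨z, hz⟩ := hilbert hL (by omega) hc _ ht
  refine ⟨y⁻¹, y⁻¹ * z, ?_⟩
  unfold Ln
  have h1 : y⁻¹ ^ 2 * (y⁻¹ * z) + y⁻¹ * (y⁻¹ * z) ^ 2 = y⁻¹ ^ 3 * (z ^ 2 + z) := by ring
  rw [h1, hz]
  field_simp

end TRCx

theorem p_TRC (hL : T_LIN) : T_TRC := by
  intro F _ _ _ n hn hc
  have hn1 : 1 ≤ n := by omega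
  exact ⟨fun x y => TRCx.tr_add n x y, fun x => TRCx.tr_sq hc x, fun x => TRCx.tr_bit hc x,
    TRCx.tr_one hL hn1 hc, fun x => TRCx.tr_ker hL hn1 hc x,
    fun c h => TRCx.nondeg hL hn1 hc c h, fun g hg hb => TRCx.rep hL hn1 hc g hg hb,
    fun u _ => TRCx.exists_pair hL hn hc u⟩

end Pool.Agent.GSW
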