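import Pool.Agent.GSW.Targets

set_option autoImplicit false

/-!
# TRI: no trilinear forms
-/

namespace Pool.Agent.GSW

open Finset

namespace TRIx

section

variable {F : Type} [Field F]

theorem two_eq [CharP F 2] : (2 : F) = 0 := by
  have := CharP.cast_eq_zero F 2
  exact_mod_cast this

theorem bit_add [CharP F 2] {a b : F} (ha : Bit a) (hb : Bit b) : Bit (a + b) := by
  rcases ha with rfl | rfl <;> rcases hb with rfl | rfl
  · exact Or.inl (add_zero 0)
  · exact Or.inr (zero_add 1)
  · exact Or.inr (add_zero 1)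
  · exact Or.inl (CharTwo.add_self_eq_zero 1)

theorem eq_of_add [CharP F 2] {a b : F} (h : a + b = 0) : a = b := by
  linear_combination h - b * (two_eq (F := F))

theorem pow21_a [CharP F 2] {y z : F} (hy : y ≠ 0) (h : (z + y) ^ 3 = z ^ 3) : y ^ 3 = z ^ 3 := by
  have h1 : y * (3 * z ^ 2 + 3 * z * y + y ^ 2) = 0 := by linear_combination h
  have h2 : 3 * z ^ 2 + 3 * z * y + y ^ 2 = 0 := (mul_eq_zero.1 h1).resolve_left hy
  linear_combination (y + z) * h2 -
    (2 * z * y ^ 2 + 3 * z ^ 2 * y + 2 * z ^ 3) * (two_eq (F := F))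

theorem pow21_b [CharP F 2] {y z p q : F} (h1 : p * z ^ 3 = 1) (h2 : q * y ^ 3 = 1)
    (h3 : (p + q) * (z + y) ^ 3 = 1) : y ^ 7 = z ^ 7 := by
  have h4 : (z ^ 3 + y ^ 3) * (z + y) ^ 3 = z ^ 3 * y ^ 3 := by
    linear_combination z ^ 3 * y ^ 3 * h3 - (z + y) ^ 3 * y ^ 3 * h1 - (z + y) ^ 3 * z ^ 3 * h2
  linear_combination (y + z) * h4 -
    (z ^ 7 + 2 * y * z ^ 6 + 3 * z ^ 5 * y ^ 2 + 2 * z ^ 4 * y ^ 3 + 2 * z ^ 3 * y ^ 4 +
      3 * z ^ 2 * y ^ 5 + 2 * z * y ^ 6) * (two_eq (F := F))

/-- a finite set of elements with the same `21`st power -/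
theorem card_le [DecidableEq F] (K : Finset F) (z : F) (h : ∀ y ∈ K, y ≠ 0 → y ≠ z →
    y ^ 21 = z ^ 21) : K.card ≤ 23 := by
  have h1 : K ⊆ insert 0 (insert z (Polynomial.nthRoots 21 (z ^ 21)).toFinset) := by
    intro y hy
    rw [mem_insert, mem_insert, Multiset.mem_toFinset, Polynomial.mem_nthRoots (by norm_num)]
    by_cases h0 : y = 0
    · exact Or.inl h0
    · by_cases h2 : y = z
      · exact Or.inr (Or.inl h2)
      · exact Or.inr (Or.inr (h y hy h0 h2))
  have h2 := card_le_card h1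
  have h3 := card_insert_le (0 : F) (insert z (Polynomial.nthRoots 21 (z ^ 21)).toFinset)
  have h4 := card_insert_le z (Polynomial.nthRoots 21 (z ^ 21)).toFinset
  have h5 := Multiset.toFinset_card_le (Polynomial.nthRoots 21 (z ^ 21))
  have h6 := Polynomial.card_nthRoots 21 (z ^ 21)
  omega

theorem Fm_add (n : ℕ) (hadd : ∀ x y : F, Tr n (x + y) = Tr n x + Tr n y)
    (u al al' e e' x y : F) : Fm n u (al + al') (e + e') x y =
      Fm n u al e x y + Fm n u al' e' x y := by
  unfold Fm
  rw [add_mul, hadd]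
  ring

theorem quad [CharP F 2] [Fintype F] (n : ℕ)
    (hadd : ∀ x y : F, Tr n (x + y) = Tr n x + Tr n y)
    (hsq : ∀ x : F, Tr n (x ^ 2) = Tr n x)
    (hnd : ∀ c : F, (∀ x : F, Tr n (c * x) = 0) → c = 0) {p z : F}
    (h : ∀ x : F, Tr n (p * (x ^ 2 * z + x * z ^ 2)) = 0) (hz : z ≠ 0) (hp : p ≠ 0) :
    p * z ^ 3 = 1 := by
  have hc : p * z + p ^ 2 * z ^ 4 = 0 := by
    apply hnd
    intro v
    obtain ⟨x, rfl⟩ := FiniteField.isSquare_of_char_two (ringChar.eq F 2) v
    have h1 := h x
    have e1 : p * (x ^ 2 * z + x * z ^ 2) = p * z * x ^ 2 + p * z ^ 2 * x := by ring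
    rw [e1, hadd, ← hsq (p * z ^ 2 * x), ← hadd] at h1
    rw [← h1]
    congr 1
    ring
  have h2 := eq_of_add hc
  have h3 : p * z ≠ 0 := mul_ne_zero hp hz
  have h4 : p * z * (p * z ^ 3) = p * z * 1 := by linear_combination -h2
  exact mul_left_cancel₀ h3 h4

end

end TRIx

open TRIx in
theorem p_TRI (h_FRM : T_FRM) (h_UQF : T_UQF) (h_TRC : T_TRC) : T_TRI := by
  intro F _ _ _ n hn hcard u t hu halt hadd3 htzz _ hLn
  classical
  obtain ⟨Tadd, Tsq, -, -, -, Tnd, -, -⟩ := h_TRC F n (by omega) hcard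
  have hz : ∀ z, ∃ al e : F, Bit e ∧ Tr n (al * u) = 0 ∧ ∀ x y, t x y z = Fm n u al e x y :=
    fun z => h_FRM F n hn hcard u (fun x y => t x y z) hu (halt z) fun a d h => hLn a d z h
  choose ph s hbit _ hform using hz
  have hlin : ∀ z z', ph (z + z') = ph z + ph z' ∧ s (z + z') = s z + s z' := by
    intro z z'
    have h1 := h_UQF F n hn hcard u (ph (z + z') + (ph z + ph z')) (s (z + z') + (s z + s z')) hu
      (bit_add (hbit _) (bit_add (hbit _) (hbit _))) (fun x y => by
        rw [Fm_add n Tadd, Fm_add n Tadd, ← hform, ← hform, ← hform, hadd3]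
        exact CharTwo.add_self_eq_zero _)
    exact ⟨eq_of_add h1.1, eq_of_add h1.2⟩
  -- the kernel of `s`
  set K0 : Finset F := univ.filter fun z => s z = 0 with hK0
  have hmem : ∀ z, z ∈ K0 ↔ s z = 0 := fun z => by rw [hK0, mem_filter]; simp
  have hbig : 64 ≤ K0.card := by
    have h1 : K0.card + (univ.filter fun z => ¬ s z = 0).card = 2 ^ n := by
      rw [← hcard, hK0, card_filter_add_card_filter_not]
      rfl
    have h2 : (univ.filter fun z => ¬ s z = 0).card ≤ K0.card := by
      rcases (univ.filter fun z => ¬ s z = 0).eq_empty_or_nonempty with h | ⟨z₀, hz₀⟩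
      · rw [h, card_empty]
        exact Nat.zero_le _
      · have hs0 : s z₀ = 1 := (hbit z₀).resolve_left (mem_filter.1 hz₀).2
        refine card_le_card_of_injOn (fun z => z + z₀) (fun z hz => ?_) fun z _ z' _ h => ?_
        · have hs1 : s z = 1 := (hbit z).resolve_left (mem_filter.1 (mem_coe.1 hz)).2
          rw [mem_coe, hmem, (hlin z z₀).2, hs1, hs0]
          exact CharTwo.add_self_eq_zero _
        · exact add_right_cancel h
    have h3 : 2 ^ 7 ≤ 2 ^ n := Nat.pow_le_pow_right (by norm_num) hn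
    omega
  have hcube : ∀ z ∈ K0, z ≠ 0 → ph z ≠ 0 → ph z * z ^ 3 = 1 := by
    intro z hz hz0 hp
    refine quad n Tadd Tsq Tnd (fun x => ?_) hz0 hp
    have h1 := htzz x z
    rw [hform, (hmem z).1 hz] at h1
    unfold Fm at h1
    rwa [zero_mul, add_zero] at h1
  have hph0 : ph 0 = 0 := by
    have h1 := (hlin 0 0).1
    rw [add_zero, CharTwo.add_self_eq_zero] at h1
    exact h1
  have hph : ∀ z ∈ K0, ph z = 0 := by
    intro z hz
    by_contra hp
    have hz0 : z ≠ 0 := by
      rintro rfl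
      exact hp hph0
    have h1 := hcube z hz hz0 hp
    have h2 := card_le K0 z (fun y hy hy0 hyz => by
      have hzy : z + y ∈ K0 := by
        rw [hmem, (hlin z y).2, (hmem z).1 hz, (hmem y).1 hy, add_zero]
      have hzy0 : z + y ≠ 0 := fun h => hyz (eq_of_add h).symm
      by_cases hpy : ph y = 0
      · have h3 : ph (z + y) = ph z := by rw [(hlin z y).1, hpy, add_zero]
        have h4 := hcube (z + y) hzy hzy0 (by rw [h3]; exact hp)
        rw [h3] at h4
        have h5 : (z + y) ^ 3 = z ^ 3 := mul_left_cancel₀ hp (h4.trans h1.symm)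
        have h6 := pow21_a hy0 h5
        calc y ^ 21 = (y ^ 3) ^ 7 := by ring
          _ = z ^ 21 := by rw [h6]; ring
      · have h3 := hcube y hy hy0 hpy
        by_cases hpp : ph (z + y) = 0
        · have h4 : ph z = ph y := by
            rw [(hlin z y).1] at hpp
            exact eq_of_add hpp
          rw [← h4] at h3
          have h5 : y ^ 3 = z ^ 3 := mul_left_cancel₀ hp (h3.trans h1.symm)
          calc y ^ 21 = (y ^ 3) ^ 7 := by ring
            _ = z ^ 21 := by rw [h5]; ring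
        · have h4 := hcube (z + y) hzy hzy0 hpp
          rw [(hlin z y).1] at h4
          have h5 := pow21_b h1 h3 h4
          calc y ^ 21 = (y ^ 7) ^ 3 := by ring
            _ = z ^ 21 := by rw [h5]; ring)
    omega
  -- `s` vanishes
  have hs : ∀ z, s z = 0 := by
    intro z₀
    by_contra hs0
    have hs1 : s z₀ = 1 := (hbit z₀).resolve_left hs0
    have hnot : ∀ z, s z ≠ 0 → ∀ x, t x z z₀ = 0 := by
      intro z hz x
      have h1 : s z = 1 := (hbit z).resolve_left hz
      have h2 : z + z₀ ∈ K0 := by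
        rw [hmem, (hlin z z₀).2, h1, hs1]
        exact CharTwo.add_self_eq_zero _
      have h3 : ph z = ph z₀ := by
        have h4 := hph _ h2
        rw [(hlin z z₀).1] at h4
        exact eq_of_add h4
      rw [hform, hs1, ← h3, ← h1, ← hform]
      exact htzz x z
    have hall : ∀ x y, Fm n u (ph z₀) (s z₀) x y = 0 := by
      intro x y
      rw [← hform]
      by_cases hy : s y = 0
      · have h1 : t x (y + z₀) z₀ = 0 := by
          apply hnot
          rw [(hlin y z₀).2, hy, zero_add]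
          exact hs0
        have h2 : t x z₀ z₀ = 0 := hnot z₀ hs0 x
        have h3 := (halt z₀).add2 x y z₀
        have h4 : t x (y + z₀) z₀ = t x y z₀ + t x z₀ z₀ := h3
        rw [h1, h2, add_zero] at h4
        exact h4.symm
      · exact hnot y hy x
    exact hs0 (h_UQF F n hn hcard u (ph z₀) (s z₀) hu (hbit z₀) hall).2
  intro x y z
  have h0 : ph 0 = 0 := hph0
  have hTr0 : Tr n (0 : F) = 0 := by
    have h1 := Tadd 0 0
    rw [add_zero] at h1
    rw [h1]
    exact CharTwo.add_self_eq_zero _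
  rw [hform, hs z, hph z ((hmem z).2 (hs z))]
  unfold Fm
  rw [zero_mul, zero_mul, hTr0, add_zero]

end Pool.Agent.GSW
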