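import Pool.Agent.GSW.Targets

set_option autoImplicit false

/-!
# UQF: uniqueness of the two parameters
-/

namespace Pool.Agent.GSW

open Finset

namespace UQFx

variable {F : Type} [Field F]

/-- the coefficients -/
def ll (v al e : F) (i : ℕ) : F :=
  if i = 0 then e * v else if i = 2 then al ^ 4 else if i = 4 then al ^ 8 else
    if i = 6 then e * v ^ 8 else 0

lemma sum_ll (v al e x : F) {n : ℕ} (hn : 7 ≤ n) :
    ∑ i ∈ range n, ll v al e i * x ^ 2 ^ i =
      e * v * x + al ^ 4 * x ^ 4 + al ^ 8 * x ^ 16 + e * v ^ 8 * x ^ 64 := by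
  have h1 : ∑ i ∈ range n, ll v al e i * x ^ 2 ^ i =
      ∑ i ∈ range 7, ll v al e i * x ^ 2 ^ i := by
    symm
    apply Finset.sum_subset (Finset.range_subset_range.2 hn)
    intro i _ hi
    have h7 : 7 ≤ i := by simpa using hi
    have : ll v al e i = 0 := by
      unfold ll
      rw [if_neg (by omega), if_neg (by omega), if_neg (by omega), if_neg (by omega)]
    rw [this, zero_mul]
  rw [h1]
  simp [Finset.sum_range_succ, ll]

end UQFx

open UQFx in
theorem p_UQF (hL : T_LIN) (hT : T_TRC) : T_UQF := by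
  intro F _ _ _ n hn hc u al e hu he h
  obtain ⟨t1, t2, -, -, -, t6, -, -⟩ := hT F n (by omega) hc
  obtain ⟨l1, -, -⟩ := hL F n (by omega) hc
  set v : F := (u ^ 3)⁻¹ with hv
  have hv0 : v ≠ 0 := inv_ne_zero (pow_ne_zero 3 hu)
  have t2' : ∀ (k : ℕ) (x : F), Tr n (x ^ 2 ^ k) = Tr n x := by
    intro k
    induction k with
    | zero => intro x; simp
    | succ k ih =>
      intro x
      rw [pow_succ, pow_mul, t2, ih]
  have t0 : Tr n (0 : F) = 0 := by
    unfold Tr
    exact Finset.sum_eq_zero fun i _ => zero_pow (by positivity)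
  have hroot : ∀ t : F, ∃ y : F, y ^ 8 = t := by
    intro t
    refine ⟨t ^ 2 ^ (n - 3), ?_⟩
    rw [← pow_mul]
    have e1 : 2 ^ (n - 3) * 8 = Fintype.card F := by
      rw [hc]
      have : n = (n - 3) + 3 := by omega
      conv_rhs => rw [this, pow_add]
      norm_num
    rw [e1]
    exact FiniteField.pow_card t
  have key : ∀ x : F, e * v * x + al ^ 4 * x ^ 4 + al ^ 8 * x ^ 16 + e * v ^ 8 * x ^ 64 = 0 := by
    intro x
    refine t6 _ fun t => ?_
    obtain ⟨y, rfl⟩ := hroot t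
    have h1 := h x y
    unfold Fm at h1
    have h2 : e * Tr n ((u ^ 3)⁻¹ * (x ^ 8 * y + x * y ^ 8)) =
        Tr n (e * v ^ 8 * x ^ 64 * y ^ 8) + Tr n (e * v * x * y ^ 8) := by
      rw [← hv]
      rcases he with he | he
      · rw [he]
        simp [t0]
      · rw [he, one_mul, one_mul, one_mul]
        have e2 : v * (x ^ 8 * y + x * y ^ 8) = v * x ^ 8 * y + v * x * y ^ 8 := by ring
        rw [e2, t1, ← t2' 3 (v * x ^ 8 * y)]
        congr 2
        ring
    have h3 : Tr n (al * (x ^ 2 * y + x * y ^ 2)) =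
        Tr n (al ^ 8 * x ^ 16 * y ^ 8) + Tr n (al ^ 4 * x ^ 4 * y ^ 8) := by
      have e2 : al * (x ^ 2 * y + x * y ^ 2) = al * x ^ 2 * y + al * x * y ^ 2 := by ring
      rw [e2, t1, ← t2' 3 (al * x ^ 2 * y), ← t2' 2 (al * x * y ^ 2)]
      congr 2
      · ring
      · ring
    have e3 : (e * v * x + al ^ 4 * x ^ 4 + al ^ 8 * x ^ 16 + e * v ^ 8 * x ^ 64) * y ^ 8 =
        (al ^ 8 * x ^ 16 * y ^ 8 + al ^ 4 * x ^ 4 * y ^ 8) +
          (e * v ^ 8 * x ^ 64 * y ^ 8 + e * v * x * y ^ 8) := by ring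
    rw [e3, t1, t1, t1, ← h2, ← h3]
    exact h1
  have h0 := l1 (ll v al e) (fun x => by rw [sum_ll v al e x hn]; exact key x)
  have a1 := h0 0 (by omega)
  have a2 := h0 2 (by omega)
  simp only [ll, if_true] at a1
  have a2' : al ^ 4 = 0 := by simpa [ll] using a2
  exact ⟨pow_eq_zero_iff (by norm_num) |>.1 a2', (mul_eq_zero.1 a1).resolve_right hv0⟩

end Pool.Agent.GSW
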