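import Pool.Agent.GSW.Defs

set_option autoImplicit false

/-!
# The switching class of the Gold function `x ^ 3` (MP_d7c7d1_co), targets

THEOREM. `n ≥ 7`, `u ≠ 0`, `f : F → {0, 1}` any function: `x^3 + u f(x)` is APN if and only if
`f(x) = Tr(al x^3) + e Tr(u^(-3) x^9) + Tr(la x) + c0` with `Tr(al u) = 0`. Hence all APN functions
obtained from `x^3` by changing one coordinate lie in at most four CCZ classes.
Proof: row 5277 of the table ideas, and the comments below. In characteristic 2, `x + x = 0`.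
-/

namespace Pool.Agent.GSW

open Finset

/-- NUM (45 min). The number lemma. Let `M = 2^n - 1`.
(1) Suppose `2^p + 2^q - 3 2^c - 3 2^c' - 1 - 2^k = - t M`, i.e.
`1 + t + 2^k + 3 2^c + 3 2^c' = 2^p + 2^q + t 2^n`. From the sizes `t ∈ {0, 1, 2}`.
`t = 0`: `c' < p` (if `q ≤ c'` then `3 2^c' ≥ 3 2^q` is too large), and `c ≤ q - 2` (if `c = q - 1`
then `3 2^c + 1 > 2^q + 2^(q-1) ≥ 2^q + 2^p`). If `c = q - 2`: `1 + 2^k + 3 2^c' = 2^p + 2^c`; `p ≥ 1`,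
so the right side is even, so `c' = 0`: `4 + 2^k = 2^p + 2^c`, so `(p, c) = (2, k)` (`p = c` only for
`k = 2`). If `c ≤ q - 3` then `k ≥ q - 1` by size; `k = q`: `1 + 3 2^c + 3 2^c' = 2^p` impossible;
`k = q - 1`: `1 + 3 2^c + 3 2^c' = 2^p + 2^(q-1)`, by size `c = q - 3`, `1 + 3 2^c' = 2^p + 2^c`, `c' = 0`,
`4 = 2^p + 2^c`, `p = c = 1`, `k = 3`.
`t = 1`: `2 + 2^k + 3 2^c + 3 2^c' = 2^p + 2^q + 2^n`, `2^k ≤ 2^(n/2)`. `c' = n-1` gives
`2 + 2^k + 3 2^c + 2^(n-1) = 2^p + 2^q`: impossible (`p ≤ c` if `q = n - 1`; size otherwise).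
`c' = n - 2`: `q ≤ n - 2`, `2 + 2^k + 3 2^c = 2^p + 2^q + 2^(n-2)`: if `c = q - 1` then
`2 + 2^k + 2^(q-1) = 2^p + 2^(n-2)`, `q - 1 ≤ n - 3`; otherwise `3 2^c ≤ 2^q`: too small.
`c' ≤ n - 3`: if `c = n - 2` (then `q = n - 1`, `c' < p`) `2 + 2^k + 3 2^c' = 2^p + 3 2^(n-2)` is
impossible by size; otherwise `c ≤ n - 3` and the left side is too small.
`t = 2`: only `c' = n - 1` is large enough, `3 + 2^k + 3 2^c = 2^p + 2^q + 2^(n-1)`: `c = q - 1`:
`3 + 2^k + 2^(q-1) = 2^p + 2^(n-1)`, too small; otherwise `3 2^c ≤ 2^q`, too small.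
(2), (3): similar, easier (the value has absolute value `< 2 M`; parity). For small `n` (say
`7 ≤ n ≤ 8`) everything can be checked by `decide` or `interval_cases` if useful. -/
def T_NUM : Prop := ∀ n k p q : ℕ, 7 ≤ n → 2 ≤ k → 2 * k ≤ n → p < q → q < n →
  (∀ c c' : ℕ, p ≤ c → c < q → c' < n → (c' < p ∨ q ≤ c') →
    ((2 : ℤ) ^ n - 1) ∣ 2 ^ p + 2 ^ q - 3 * 2 ^ c - 3 * 2 ^ c' - 1 - 2 ^ k →
    (p = 2 ∧ q = k + 2 ∧ c = k ∧ c' = 0) ∨ (k = 3 ∧ p = 1 ∧ q = 4 ∧ c = 1 ∧ c' = 0)) ∧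
  ¬ ((2 : ℤ) ^ n - 1) ∣ 2 ^ p + 2 ^ q - 3 * 2 ^ p - 1 - 2 ^ k ∧
  ¬ ((2 : ℤ) ^ n - 1) ∣ 2 ^ p + 2 ^ q - 3 * 2 ^ q - 1 - 2 ^ k

/-- LIN (45 min). (1) Uniqueness: a polynomial of degree `< 2^n` which vanishes on `F` is zero.
(2) The same twice. (3) Additive maps `F → F` are linearized polynomials: the map
`(Fin n → F) → (F →+ F)` is injective by (1), and both sides have `(2^n)^n` elements
(`F →+ F` is `F →ₗ[ZMod 2] F`, `Module.finrank_linearMap`, `Module.card_eq_pow_finrank`). -/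
def T_LIN : Prop := ∀ (F : Type) [Field F] [Fintype F] [CharP F 2] (n : ℕ), 1 ≤ n →
  Fintype.card F = 2 ^ n →
  (∀ l : ℕ → F, (∀ x : F, ∑ i ∈ range n, l i * x ^ 2 ^ i = 0) → ∀ i < n, l i = 0) ∧
  (∀ c : ℕ → ℕ → F, (∀ x y : F, ev n c x y = 0) → ∀ p < n, ∀ q < n, c p q = 0) ∧
  (∀ g : F → F, (∀ x y, g (x + y) = g x + g y) →
    ∃ l : ℕ → F, ∀ x, g x = ∑ i ∈ range n, l i * x ^ 2 ^ i)

/-- TRC (45 min; may use T_LIN). (1)-(3) `x^(2^n) = x`. (4) `Tr` is a polynomial of degree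
`2^(n-1)`. (5) `z ↦ z^2 + z` is additive with kernel `{0, 1}`, so its image has `2^(n-1)` elements, it
is contained in the kernel of `Tr`, which has at most `2^(n-1)` elements. (Or an explicit formula
with (4).) (6) if `c ≠ 0` take `x = θ / c`. (7) `g` is linearized by T_LIN (3) and `g^2 = g` gives
`l ((i+1) % n) = l i ^ 2` by T_LIN (1), so `l i = l 0 ^ 2^i`. (8) If `Tr (u x^(-3)) = 1` for all
`x ≠ 0`, sum over all `x ≠ 0`: `∑ x^(-3 2^i) = 0` as `2^n - 1` does not divide `3 2^i`. Then take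
`z` of (5) for `u x^(-3)` and `a = x`, `d = x z`. -/
def T_TRC : Prop := ∀ (F : Type) [Field F] [Fintype F] [CharP F 2] (n : ℕ), 3 ≤ n →
  Fintype.card F = 2 ^ n →
  (∀ x y : F, Tr n (x + y) = Tr n x + Tr n y) ∧ (∀ x : F, Tr n (x ^ 2) = Tr n x) ∧
  (∀ x : F, Bit (Tr n x)) ∧ (∃ x : F, Tr n x = 1) ∧
  (∀ x : F, Tr n x = 0 ↔ ∃ z : F, z ^ 2 + z = x) ∧
  (∀ c : F, (∀ x : F, Tr n (c * x) = 0) → c = 0) ∧
  (∀ g : F → F, (∀ x y, g (x + y) = g x + g y) → (∀ x, Bit (g x)) → ∃ c, ∀ x, g x = Tr n (c * x)) ∧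
  (∀ u : F, u ≠ 0 → ∃ a d : F, Ln u a d)

/-- SMF (20 min). `FiniteField.sum_pow_units`; integer exponents: reduce modulo `2^n - 1`. -/
def T_SMF : Prop := ∀ (F : Type) [Field F] [Fintype F] [DecidableEq F] [CharP F 2] (n : ℕ), 1 ≤ n →
  Fintype.card F = 2 ^ n → ∀ m : ℤ,
  ∑ x : Fˣ, ((x : F) ^ m) = if ((2 : ℤ) ^ n - 1) ∣ m then 1 else 0

/-- REP (40 min; from T_LIN). For fixed `y`, `b · y` is linearized, `b x y = ∑ c_p(y) x^(2^p)`; by
uniqueness `c_p` is additive, so linearized: `b x y = ev n c x y`. `b` is symmetric (`b (x+y) (x+y) =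
0`), so `c` is symmetric on `range n` by T_LIN (2); `b x x = 0` and symmetry give
`∑ c_pp (x^2)^(2^p) = 0`, all `x^2` are all elements, so `c_pp = 0`. `b^2 = b` gives `frob` by T_LIN (2)
(`x^(2^n) = x`). Put `c p q = 0` if `p ≥ n` or `q ≥ n`. -/
def T_REP : Prop := ∀ (F : Type) [Field F] [Fintype F] [CharP F 2] (n : ℕ), 3 ≤ n →
  Fintype.card F = 2 ^ n → ∀ b : F → F → F, Alt b →
  ∃ c : ℕ → ℕ → F, Cf n c ∧ ∀ x y, b x y = ev n c x y

/-- COE (60 min; from T_NUM, T_TRC, T_SMF). The heart. For `x ≠ 0` let `w = u x^(-3)`,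
`A p q = ∑_(p ≤ i < q) w^(2^i)`, `H x = ∑_(p < q < n) c p q x^(2^p + 2^q) A p q`. If `Tr w = 0` take `z` with
`z^2 + z = w`; `Ln u x (x z)`, and `ev n c x (x z) = ∑_(p<q) c p q x^(2^p+2^q) (z^(2^p) + z^(2^q)) = H x`
(symmetry, diagonal zero, telescoping), so `H x = 0`. So `H x * (1 + Tr w) = 0` for all `x ≠ 0`.
With `A' = Tr w - A` (sum over the other `i`): `A (1 + A + A') = (A + A^2) + A A'`,
`A + A^2 = w^(2^p) + w^(2^q)` (`q ≤ n - 1`). Multiply by `x^(-1-2^k)` and sum over all units `x`: by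
T_SMF and T_NUM only `(p, q, i, i') = (2, k+2, k, 0)` and, if `k = 3`, `(1, 4, 1, 0)` remain:
`c 2 (k+2) u^(2^k + 1) = 0`, resp. `c 2 5 u^9 + c 1 4 u^3 = 0`. -/
def T_COE : Prop := ∀ (F : Type) [Field F] [Fintype F] [CharP F 2] (n : ℕ), 7 ≤ n →
  Fintype.card F = 2 ^ n → ∀ (u : F) (c : ℕ → ℕ → F), u ≠ 0 → Cf n c →
  (∀ a d : F, Ln u a d → ev n c a d = 0) →
  (∀ k, 2 ≤ k → 2 * k ≤ n → k ≠ 3 → c 2 (k + 2) = 0) ∧ c 2 5 * u ^ 9 + c 1 4 * u ^ 3 = 0

/-- FRM (50 min; from T_LIN, T_TRC, T_REP, T_COE). By `frob` (shifting both indices cyclically)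
`c p q = 0` unless the cyclic distance of `p`, `q` is `1` or `3`, and
`ev n c x y = Tr (y * ∑_(i < n) c i 0 x^(2^i))` (group by `q`). So
`b x y = Tr (y (c10 x^2 + c30 x^8 + c(n-1)0 x^(2^(n-1)) + c(n-3)0 x^(2^(n-3))))`;
`Tr (y c(n-1)0 x^(2^(n-1))) = Tr (y^2 c01 x)` (square), the other one is `Tr (y^8 c03 x)`. So
`b x y = Tr (al (x^2 y + x y^2)) + Tr (g (x^8 y + x y^8))`, `al = c 1 0`, `g = c 3 0`. T_COE:
`c 1 4 = g^2`, `c 2 5 = g^4`: `g^4 u^9 = g^2 u^3`, so `g = 0` or `g^2 = u^(-6)`, `g = u^(-3)`. `Tr (al u) = 0`: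
T_TRC (8), and the second part vanishes at this pair (proof (5) of row 5277: with `p = a d`,
`s = a + d`, `p s = u`: `u^(-3) (a^8 d + a d^8) = u^(-2) s^6 + u^(-1) s^3 + u s^(-3)`, and
`u s^(-3) = t^2 + t`, `t = a / s`; state this as a lemma). -/
def T_FRM : Prop := ∀ (F : Type) [Field F] [Fintype F] [CharP F 2] (n : ℕ), 7 ≤ n →
  Fintype.card F = 2 ^ n → ∀ (u : F) (b : F → F → F), u ≠ 0 → Alt b →
  (∀ a d : F, Ln u a d → b a d = 0) →
  ∃ al e : F, Bit e ∧ Tr n (al * u) = 0 ∧ ∀ x y, b x y = Fm n u al e x y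

/-- LNV (25 min; from T_TRC). The converse: proof (5) of row 5277, see T_FRM. -/
def T_LNV : Prop := ∀ (F : Type) [Field F] [Fintype F] [CharP F 2] (n : ℕ), 3 ≤ n →
  Fintype.card F = 2 ^ n → ∀ u al e a d : F, u ≠ 0 → Tr n (al * u) = 0 → Ln u a d →
  Fm n u al e a d = 0

/-- UQF (25 min; from T_LIN). Uniqueness of the parameters: `Fm n u al e` is `ev n c` with
`c ((i+1) % n) i = c i ((i+1) % n) = al^(2^i)`, `c ((i+3) % n) i = .. = (e u^(-3))^(2^i)`; or directly: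
`x = ` fixed, coefficients in `y`. -/
def T_UQF : Prop := ∀ (F : Type) [Field F] [Fintype F] [CharP F 2] (n : ℕ), 7 ≤ n →
  Fintype.card F = 2 ^ n → ∀ u al e : F, u ≠ 0 → Bit e → (∀ x y, Fm n u al e x y = 0) →
  al = 0 ∧ e = 0

/-- TRI (60 min; from T_FRM, T_UQF, T_TRC). No trilinear forms. For every `z`, `t · · z` is as in
T_FRM: `t x y z = Fm n u (ph z) (s z) x y`, `ph z` and `s z` are unique by T_UQF, so additive in `z`.
(i) `K0 = {z | s z = 0}` has at least `2^(n-1)` elements. For `z ∈ K0`: `t x z z = 0` for all `x`: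
`Tr (ph z (x^2 z + x z^2)) = 0`, i.e. `Tr (x^2 (ph z * z + (ph z * z^2)^2)) = 0` for all `x`, so
`ph z * z = ph z ^ 2 * z ^ 4`: `ph z = 0` or `ph z * z^3 = 1`. Suppose `ph z ≠ 0`, `z ∈ K0`. For
`y ∈ K0`, `y ≠ 0`, `y ≠ z`, `r = y / z`: if `ph y = 0` then `ph (z + y) = ph z`, `(1 + r)^3 = 1`; if
`ph (z + y) = 0` then `r^3 = 1`; otherwise `z^(-3) + y^(-3) = (z + y)^(-3)`, i.e.
`(1 + r^3) (1 + r)^3 = r^3`. So `r` is a root of
`((1+X)^3 + 1) (X^3 + 1) ((1 + X^3) (1 + X)^3 + X^3)`, a nonzero polynomial of degree 12, but there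
are `≥ 2^(n-1) - 2 ≥ 62` values. So `ph = 0` on `K0`.
(ii) If `s z0 ≠ 0` (`s z0 = 1`), `w = ph z0`: if `s z ≠ 0` then `z + z0 ∈ K0`, `ph z = w`, so
`Fm n u w 1 z y = t z y z = 0` for all `y`. Every `z ∈ K0` is the sum of `z + z0` and `z0` (both not in
`K0`), so `Fm n u w 1 = 0` everywhere, contradiction to T_UQF. So `s = 0`, `ph = 0`. -/
def T_TRI : Prop := ∀ (F : Type) [Field F] [Fintype F] [CharP F 2] (n : ℕ), 7 ≤ n →
  Fintype.card F = 2 ^ n → ∀ (u : F) (t : F → F → F → F), u ≠ 0 →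
  (∀ z, Alt (fun x y => t x y z)) → (∀ x y z z', t x y (z + z') = t x y z + t x y z') →
  (∀ x z, t x z z = 0) → (∀ x z, t z x z = 0) → (∀ a d z, Ln u a d → t a d z = 0) →
  ∀ x y z, t x y z = 0

/-- NIL (30 min). Iterated derivatives: `ders l f x` is the sum of `f (x + sum of l')` over all
sublists `l'` of `l`. If `l.length > n` two different sets of positions have the same sum, so there is a nonempty
set `T` of positions with sum `0`; symmetric difference with `T` pairs the terms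
(`Finset.sum_involution`, or use `ders (l ++ [a]) = ders l + shift`, and induction: another proof:
reorder such that `l = l₁ ++ l₂`, the sum of `l₁` is zero ...). -/
def T_NIL : Prop := ∀ (F : Type) [Field F] [Fintype F] [CharP F 2] (n : ℕ),
  Fintype.card F = 2 ^ n → ∀ (f : F → F) (l : List F), n < l.length → ∀ x, ders l f x = 0

/-- DEG (50 min; from T_TRI, T_NIL). By induction `m` down from `n + 1` to `3`: all derivatives
`ders l f` with `l.length = m` vanish. Step `m ≥ 4 → m - 1`: fix `l` with `l.length = m - 4`, and let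
`t x y z = ders (x :: y :: z :: l) f 0`. Since all `m`-fold derivatives vanish, `ders (x :: y :: z :: l) f`
is constant and additive in `x`, `y`, `z`
(`der (x + x') g v = der x g (v + x') + der x' g v = der x g v + der x' g v + ders [x, x'] g v`; `der x (der x g) = 0`;
derivatives commute). `Ln u a d` gives `t a d z = 0` by the hypothesis and commutation. T_TRI. -/
def T_DEG : Prop := ∀ (F : Type) [Field F] [Fintype F] [CharP F 2] (n : ℕ), 7 ≤ n →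
  Fintype.card F = 2 ^ n → ∀ (u : F) (f : F → F), u ≠ 0 → (∀ x, Bit (f x)) →
  (∀ a d x : F, Ln u a d → der a (der d f) x = 0) →
  ∀ x y z v : F, der x (der y (der z f)) v = 0

/-- QUA (40 min; from T_FRM, T_DEG, T_TRC). `b x y = der x (der y f) 0` is alternating by T_DEG. T_FRM:
`b = Fm n u al e`. `g x = f x + Tr (al x^3) + e Tr (u^(-3) x^9) + f 0` is additive with values in
`{0, 1}` (`(x+y)^3 = x^3 + y^3 + x^2 y + x y^2`, `(x+y)^9 = (x^8 + y^8)(x + y)`), so it is `Tr (la x)` by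
T_TRC (7). -/
def T_QUA : Prop := ∀ (F : Type) [Field F] [Fintype F] [CharP F 2] (n : ℕ), 7 ≤ n →
  Fintype.card F = 2 ^ n → ∀ (u : F) (f : F → F), u ≠ 0 → (∀ x, Bit (f x)) →
  (∀ a d x : F, Ln u a d → der a (der d f) x = 0) →
  ∃ al e la c0 : F, Bit e ∧ Bit c0 ∧ Tr n (al * u) = 0 ∧
    ∀ x, f x = Tr n (al * x ^ 3) + e * Tr n ((u ^ 3)⁻¹ * x ^ 9) + Tr n (la * x) + c0

/-- APN (40 min). `G x = x^3 + u f x`: `der a (der d G) x = (a^2 d + a d^2) + u der a (der d f) x`.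
APN iff `der a (der d G) x ≠ 0` for all `x` and `a, d` with `a ≠ 0`, `d ≠ 0`, `a ≠ d` (if `x`, `x + a`,
`x + d` are three solutions of `G (x + a) + G x = b` ...: with two solutions `x`, `x' = x + d` of
`G (x + a) + G x = b`, `d ∉ {0, a}`, the derivative vanishes; and conversely `x, x + a, x + d` are three
solutions). `a^2 d + a d^2 = a d (a + d) ≠ 0`, so the derivative can only vanish if `Ln u a d`, and
then it is `u (1 + der a (der d f) x)`. `ncard` of subsets of a finite type. -/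
def T_APN : Prop := ∀ (F : Type) [Field F] [Fintype F] [CharP F 2] (u : F) (f : F → F), u ≠ 0 →
  (∀ x, Bit (f x)) →
  (IsAPN (fun x => x ^ 3 + u * f x) ↔ ∀ a d x : F, Ln u a d → der a (der d f) x = 0)

/-- SUF (30 min; from T_LNV, T_TRC, T_APN). The converse: for the functions `f` of T_QUA,
`der a (der d f) x = Fm n u al e a d`, which is `0` by T_LNV. -/
def T_SUF : Prop := ∀ (F : Type) [Field F] [Fintype F] [CharP F 2] (n : ℕ), 7 ≤ n →
  Fintype.card F = 2 ^ n → ∀ (u al e la c0 : F), u ≠ 0 → Bit e → Bit c0 → Tr n (al * u) = 0 →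
  ∀ a d x : F, Ln u a d → der a (der d (fun x => Tr n (al * x ^ 3) +
    e * Tr n ((u ^ 3)⁻¹ * x ^ 9) + Tr n (la * x) + c0)) x = 0

/-- the normal forms: `x^3` and `x^3 + v Tr(v^(-3) x^9)` -/
noncomputable def Nf {F : Type} [Field F] (n : ℕ) (v : F) (x : F) : F :=
  x ^ 3 + v * Tr n ((v ^ 3)⁻¹ * x ^ 9)

/-- CLS (50 min; from T_TRC). Equivalence. (1) `CCZ` is an equivalence relation. (2) `Tr (al u) = 0`:
`L y = y + u Tr (al y)` is an additive involution; `L (x^3 + e u Tr (u^(-3) x^9)) = x^3 +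
e u Tr (u^(-3) x^9) + u Tr (al x^3)` (`Tr (al u t) = t Tr (al u) = 0` for a bit `t`);
`A (x, y) = (x, L y + u Tr (la x))`. (3) `Nf n v (mu x) = mu^3 Nf n (v / mu^3) x`. (4) A generator `g`
of `Fˣ`: every `v ≠ 0` is `g^j mu^3`, `j < 3`. -/
def T_CLS : Prop := ∀ (F : Type) [Field F] [Fintype F] [CharP F 2] (n : ℕ), 3 ≤ n →
  Fintype.card F = 2 ^ n →
  (∀ G : F → F, CCZ G G) ∧ (∀ G H : F → F, CCZ G H → CCZ H G) ∧
  (∀ G H K : F → F, CCZ G H → CCZ H K → CCZ G K) ∧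
  (∀ u al e la c0 : F, u ≠ 0 → Bit e → Bit c0 → Tr n (al * u) = 0 →
    (e = 0 → CCZ (fun x => x ^ 3 + u * (Tr n (al * x ^ 3) + e * Tr n ((u ^ 3)⁻¹ * x ^ 9) +
      Tr n (la * x) + c0)) (fun x => x ^ 3)) ∧
    (e = 1 → CCZ (fun x => x ^ 3 + u * (Tr n (al * x ^ 3) + e * Tr n ((u ^ 3)⁻¹ * x ^ 9) +
      Tr n (la * x) + c0)) (Nf n u))) ∧
  ∃ g : F, g ≠ 0 ∧ ∀ v : F, v ≠ 0 → ∃ j < 3, CCZ (Nf n v) (Nf n (g ^ j))

end Pool.Agent.GSW
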